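import Mathlib

set_option autoImplicit false

namespace Pool.Agent.P.MP_91e65d_lc.Ws

open scoped Pointwise

/-- The tower function: `tower 0 = 1`, `tower (n + 1) = 2 ^ tower n`. -/
def tower : ℕ → ℕ
  | 0 => 1
  | n + 1 => 2 ^ tower n

/-- Uniform local polynomial growth: one degree `d` serves every finite subset. -/
def LocPolyGrowth (Q : Type*) [Group Q] : Prop :=
  ∃ d : ℕ, ∀ S : Set Q, S.Finite → ∃ C : ℕ, ∀ n : ℕ, (S ^ n).ncard ≤ C * (n + 1) ^ d

/-- For every finite `T` and every `C` there is `L ≥ 1` such that the elements of `A` that are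
products of `C * L` elements of `T` generate a finite group of order at most `tower L`. -/
def SubTower {Γ : Type*} [Group Γ] (A : Subgroup Γ) : Prop :=
  ∀ T : Set Γ, T.Finite → ∀ C : ℕ, ∃ L : ℕ, 1 ≤ L ∧
    (Subgroup.closure ((A : Set Γ) ∩ T ^ (C * L)) : Set Γ).encard ≤ tower L

end Pool.Agent.P.MP_91e65d_lc.Ws
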