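import Pool.Agent.P.MP_91e65d_lc.Ws.Defs

set_option autoImplicit false

namespace Pool.Agent.P.MP_91e65d_lc.Ws

open scoped Pointwise

/-- There is a degree `d` such that for every finite `T` and every `C` there is `L ≥ 1` for which
the set of elements of `A` that are products of `C * L` elements of `T` has polynomial growth of
degree `d` with constant `tower L`. -/
def SubTowerPoly {Γ : Type*} [Group Γ] (A : Subgroup Γ) : Prop :=
  ∃ d : ℕ, ∀ T : Set Γ, T.Finite → ∀ C : ℕ, ∃ L : ℕ, 1 ≤ L ∧
    ∀ j : ℕ, (((A : Set Γ) ∩ T ^ (C * L)) ^ j).ncard ≤ tower L * (j + 1) ^ d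

/-- The group has a normal subgroup with `SubTowerPoly` whose quotient has polynomial growth. -/
def PolyByPoly (G : Type*) [Group G] : Prop :=
  ∃ (A : Subgroup G) (_ : A.Normal), LocPolyGrowth (G ⧸ A) ∧ SubTowerPoly A

end Pool.Agent.P.MP_91e65d_lc.Ws
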