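import Pool.Agent.P.MP_91e65d_lc.Ws.Main

set_option autoImplicit false

namespace Pool.Agent.P.MP_91e65d_lc.Ws

open Set Pool.Agent.P.MP_91e65d_lc.Tr
open scoped Pointwise

section Tw

lemma tower_mono : Monotone tower :=
  monotone_nat_of_le_succ fun _ => Nat.lt_two_pow_self.le

lemma le_tower : ∀ n, n ≤ tower n
  | 0 => Nat.zero_le _
  | n + 1 => (le_tower n).trans_lt Nat.lt_two_pow_self

/-- Bounded by a shifted tower. -/
def Tw (f : ℕ → ℕ) : Prop := ∃ K, ∀ L, f L ≤ tower (L + K)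

lemma Tw.const (c : ℕ) : Tw fun _ => c :=
  ⟨c, fun _ => (le_tower c).trans (tower_mono (by omega))⟩

lemma Tw.id : Tw fun L => L := ⟨0, le_tower⟩

lemma Tw.tower : Tw fun L => tower L := ⟨0, fun _ => le_rfl⟩

lemma two_mul_le_pow (t : ℕ) : 2 * t ≤ 2 ^ t := by
  cases t with
  | zero => simp
  | succ t => have : t < 2 ^ t := Nat.lt_two_pow_self; rw [pow_succ]; omega

lemma Tw.add {f g : ℕ → ℕ} (hf : Tw f) (hg : Tw g) : Tw fun L => f L + g L := by
  obtain ⟨⟨a, ha⟩, b, hb⟩ := And.intro hf hg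
  refine ⟨a + b + 1, fun L => ?_⟩
  have h1 := (ha L).trans (tower_mono (show L + a ≤ L + (a + b) by omega))
  have h2 := (hb L).trans (tower_mono (show L + b ≤ L + (a + b) by omega))
  exact le_trans (by dsimp only; omega) (two_mul_le_pow (Ws.tower (L + (a + b))))

lemma Tw.two_pow {f : ℕ → ℕ} (hf : Tw f) : Tw fun L => 2 ^ f L :=
  let ⟨a, ha⟩ := hf; ⟨a + 1, fun L => Nat.pow_le_pow_right (by norm_num) (ha L)⟩

lemma Tw.of_le {f g : ℕ → ℕ} (hg : Tw g) (h : ∀ L, f L ≤ g L) : Tw f :=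
  let ⟨a, ha⟩ := hg; ⟨a, fun L => (h L).trans (ha L)⟩

lemma Tw.mul {f g : ℕ → ℕ} (hf : Tw f) (hg : Tw g) : Tw fun L => f L * g L :=
  (hf.add hg).two_pow.of_le fun _ => by
    rw [pow_add]; exact Nat.mul_le_mul Nat.lt_two_pow_self.le Nat.lt_two_pow_self.le

lemma Tw.pow {f g : ℕ → ℕ} (hf : Tw f) (hg : Tw g) : Tw fun L => f L ^ g L :=
  (hf.mul hg).two_pow.of_le fun _ => by
    rw [pow_mul]; exact Nat.pow_le_pow_left Nat.lt_two_pow_self.le _

end Tw

variable {Γ X : Type*} [Group Γ] [MulAction Γ X]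

/-- Invariance along a relation. -/
def InvR {β : Type*} (R : X → X → Prop) (f : X → β) : Prop := ∀ y y', R y y' → f y = f y'

/-- Moving by `U` raises the level by one. -/
def FiltR (U : Set Γ) (R : ℕ → X → X → Prop) : Prop :=
  ∀ n, ∀ γ ∈ U, ∀ y y', R n y y' → R (n + 1) (γ • y) (γ • y')

variable {U : Set Γ} {R : ℕ → X → X → Prop}

lemma InvR.down {β : Type*} {f : X → β} (hB : FiltR U R) (h1 : 1 ∈ U) {n : ℕ} :
    ∀ {k : ℕ}, InvR (R (n + k)) f → InvR (R n) f
  | 0, h => h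
  | _ + 1, h => InvR.down hB h1 fun y y' r => h _ _ (by simpa [add_assoc] using hB _ 1 h1 y y' r)

variable [MeasurableSpace X]

lemma reduceR (hm : ∀ γ : Γ, Measurable fun x : X => γ • x) (hB : FiltR U R) (h1 : 1 ∈ U) {γ : Γ}
    (hγ : γ ∈ U) (n L : ℕ) : ∀ c : X → ℕ, Measurable c → (∀ x, c x < 8 * tower L) →
      InvR (R (n + L)) c → ∃ c' : X → ℕ, Measurable c' ∧ (∀ x, c' x < 8) ∧ InvR (R n) c' ∧
        ∀ x, c x ≠ c (γ • x) → c' x ≠ c' (γ • x) := by
  obtain ⟨cv, v1, v2⟩ := exists_cv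
  induction L with
  | zero => exact fun c c1 c2 c3 => ⟨c, c1, c2, c3, fun _ h => h⟩
  | succ L ih =>
    intro c c1 c2 c3
    have hb : ∀ x, c x < 2 ^ (tower L + 3) := fun x => by
      rw [pow_add, mul_comm]; exact c2 x
    obtain ⟨c', d1, d2, d3, d4⟩ := ih (fun x => cv (c x) (c (γ • x)))
      ((Measurable.of_discrete (f := fun p : ℕ × ℕ => cv p.1 p.2)).comp
        (c1.prodMk (c1.comp (hm γ))))
      (fun x => by
        have := v2 _ _ _ (by omega) (hb x) (hb (γ • x))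
        have := tower_pos L
        omega)
      (fun y y' r => by
        have e1 := InvR.down hB h1 (k := 1) c3 y y' r
        have e2 := c3 _ _ (hB _ γ hγ y y' r)
        dsimp only
        rw [e1, e2])
    exact ⟨c', d1, d2, d3, fun x h => d4 x (v1 _ _ _ h)⟩

lemma greedyR (hm : ∀ γ : Γ, Measurable fun x : X => γ • x) (hB : FiltR U R) (h1 : 1 ∈ U)
    (hU : U.Countable) (hi : ∀ γ ∈ U, γ⁻¹ ∈ U) {β : Type*} {κ : X → β}
    (κm : ∀ i, Measurable fun x => κ x = i) (s : Finset β) : ∀ n, InvR (R (n + s.card)) κ →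
      ∃ M : X → Prop, Measurable M ∧ InvR (R n) M ∧
        (∀ x, ∀ γ ∈ U, M x → M (γ • x) → κ x = κ (γ • x)) ∧
        ∀ x, κ x ∈ s → ∃ γ ∈ U, M (γ • x) := by
  classical
  have := hU.to_subtype
  induction s using Finset.induction_on with
  | empty => exact fun n _ => ⟨fun _ => False, measurable_const, fun _ _ _ => rfl,
      fun _ _ _ h => h.elim, fun x h => by simp at h⟩
  | @insert i s hi' ih =>
    intro n h
    rw [Finset.card_insert_of_notMem hi'] at h
    obtain ⟨M, m1, m2, m3, m4⟩ := ih (n + 1) (by rwa [add_right_comm])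
    refine ⟨fun x => M x ∨ (κ x = i ∧ ∀ γ : U, ¬ M (γ.1 • x)),
      m1.or ((κm i).and (Measurable.forall fun γ => (m1.comp (hm γ)).not)), fun y y' r => ?_,
      ?_, fun x hx => ?_⟩
    · have e1 := InvR.down hB h1 (k := 1) m2 y y' r
      have e2 := InvR.down hB h1 h y y' r
      have e3 := fun γ : U => m2 _ _ (hB _ γ γ.2 y y' r)
      simp only [e1, e2, e3]
    · rintro x γ hγ (h | h) (h' | h')
      · exact m3 x γ hγ h h'
      · exact (h'.2 ⟨γ⁻¹, hi γ hγ⟩ (by simpa using h)).elim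
      · exact (h.2 ⟨γ, hγ⟩ h').elim
      · exact h.1.trans h'.1.symm
    · rcases Finset.mem_insert.1 hx with hx | hx
      · by_cases h : ∀ γ : U, ¬ M (γ.1 • x)
        · exact ⟨1, h1, Or.inr (by simpa [hx] using h)⟩
        · push Not at h
          obtain ⟨γ, h⟩ := h
          exact ⟨γ, γ.2, Or.inl h⟩
      · obtain ⟨γ, hγ, h⟩ := m4 x hx
        exact ⟨γ, hγ, Or.inl h⟩

/-- A proper colouring for a finite symmetric set of group elements. -/
lemma colour_set [StandardBorelSpace X] (hm : ∀ γ : Γ, Measurable fun x : X => γ • x)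
    {Z : Set Γ} (hZ : Z.Finite) (hi : ∀ γ ∈ Z, γ⁻¹ ∈ Z) : ∃ c : X → ℕ, Measurable c ∧
      (∀ x, c x ≤ Z.ncard) ∧ ∀ x, ∀ g ∈ Z, c x = c (g • x) → x = g • x := by
  classical
  obtain ⟨c, c1, c2, c3⟩ := colour (R := fun x y : X => ∃ g ∈ Z, g • x = y)
    (hZ.toFinset.image fun g x => g • x) (fun e he => by
      obtain ⟨g, -, rfl⟩ := Finset.mem_image.1 he
      exact hm g)
    (fun x y ⟨g, hg, e⟩ => ⟨_, Finset.mem_image_of_mem _ (hZ.mem_toFinset.2 hg), e⟩)
    (by
      rintro x _ ⟨g, hg, rfl⟩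
      exact ⟨g⁻¹, hi g hg, inv_smul_smul g x⟩)
  exact ⟨c, c1, fun x => (c2 x).trans (Finset.card_image_le.trans
    (Set.ncard_eq_toFinset_card Z hZ).ge), fun x g hg h => c3 _ _ ⟨g, hg, rfl⟩ h⟩

/-- A Borel maximal discrete set. -/
lemma exists_net [StandardBorelSpace X] (hm : ∀ γ : Γ, Measurable fun x : X => γ • x)
    {Z : Set Γ} (hZ : Z.Finite) (h1 : 1 ∈ Z) (hi : ∀ γ ∈ Z, γ⁻¹ ∈ Z) : ∃ M : X → Prop,
      Measurable M ∧ (∀ x, ∀ γ ∈ Z, M x → M (γ • x) → x = γ • x) ∧ ∀ x, ∃ γ ∈ Z, M (γ • x) := by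
  obtain ⟨c, c1, c2, c3⟩ := colour_set hm hZ hi
  obtain ⟨M, m1, -, m3, m4⟩ := greedyR (R := fun _ _ _ => False) hm (fun _ _ _ _ _ h => h) h1
    hZ.countable hi (κ := c) (fun i => Measurable.eq c1 measurable_const)
    (Finset.range (Z.ncard + 1)) 0 fun _ _ h => h.elim
  exact ⟨M, m1, fun x γ hγ h h' => c3 x γ hγ (m3 x γ hγ h h'),
    fun x => m4 x (Finset.mem_range.2 (Nat.lt_succ_of_le (c2 x)))⟩

variable [Countable Γ]

/-- A Borel choice that depends only on the set of admissible points. -/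
lemma exists_min_sel [StandardBorelSpace X] (hm : ∀ γ : Γ, Measurable fun x : X => γ • x)
    {P : X → X → Prop} (hP : Measurable fun p : X × X => P p.1 p.2)
    (h1 : ∀ y z, P y z → ∃ g : Γ, g • y = z) (h2 : ∀ y, {z | P y z}.Finite)
    (h3 : ∀ y, ∃ z, P y z) : ∃ ψ : X → X, Measurable ψ ∧ (∀ y, P y (ψ y)) ∧
      ∀ y y', (∀ z, P y z ↔ P y' z) → ψ y = ψ y' := by
  obtain ⟨f, hf⟩ := MeasureTheory.exists_measurableEmbedding_real X
  obtain ⟨g, hg⟩ := exists_surjective_nat Γ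
  obtain ⟨ψ, r1, r2⟩ := exists_sel (e := fun i (x : X) => g i • x) (fun i => hm _)
    (P := fun y z => P y z ∧ ∀ h : Γ, P y (h • y) → f z ≤ f (h • y))
    (hP.and (Measurable.forall fun h : Γ =>
      (hP.comp (measurable_fst.prodMk ((hm h).comp measurable_fst))).imp
        (measurableSet_setOfPred.1 (measurableSet_le
        (hf.measurable.comp measurable_snd) (hf.measurable.comp ((hm h).comp measurable_fst))))))
    (fun y z h => let ⟨k, e⟩ := h1 y z h.1; let ⟨i, hi⟩ := hg k; ⟨i, by rw [hi, e]⟩)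
    (fun y => by
      obtain ⟨z, z1, z2⟩ := Set.exists_min_image _ f (h2 y) (h3 y)
      exact ⟨z, z1, fun h hh => z2 _ hh⟩)
  have key : ∀ y z, P y z → f (ψ y) ≤ f z := fun y z h => by
    obtain ⟨k, rfl⟩ := h1 y z h
    exact (r2 y).2 k h
  exact ⟨ψ, r1, fun y => (r2 y).1, fun y y' h => hf.injective
    (le_antisymm (key _ _ ((h _).2 (r2 y').1)) (key _ _ ((h _).1 (r2 y).1)))⟩

lemma meas_card [MeasurableEq X] (hm : ∀ γ : Γ, Measurable fun x : X => γ • x)
    {P : X → X → Prop} (hP : Measurable fun p : X × X => P p.1 p.2)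
    (h1 : ∀ z x, P z x → ∃ g : Γ, g • z = x) (n : ℕ) :
    Measurable fun z => {x | P z x}.encard ≤ n := by
  classical
  have : (fun z => {x | P z x}.encard ≤ n) = fun z => ∃ F : Finset Γ, F.card ≤ n ∧
      ∀ g : Γ, P z (g • z) → ∃ f : F, f.1 • z = g • z := by
    ext z
    constructor
    · intro h
      have hf := finite_of_encard_le_coe h
      rw [hf.encard_eq_coe_toFinset_card, Nat.cast_le] at h
      choose! w hw using h1 z
      exact ⟨hf.toFinset.image w, Finset.card_image_le.trans h, fun g hg =>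
        ⟨⟨w (g • z), Finset.mem_image_of_mem _ (hf.mem_toFinset.2 hg)⟩, hw _ hg⟩⟩
    · rintro ⟨F, F1, F2⟩
      calc {x | P z x}.encard ≤ ((fun f : Γ => f • z) '' F).encard := encard_le_encard fun x hx => by
            obtain ⟨g, rfl⟩ := h1 z x hx
            obtain ⟨f, e⟩ := F2 g hx
            exact ⟨f, f.2, e⟩
        _ ≤ (F : Set Γ).encard := encard_image_le _ _
        _ ≤ n := by rw [encard_coe_eq_coe_finsetCard]; exact_mod_cast F1
  rw [this]
  exact Measurable.exists fun F => measurable_const.and (Measurable.forall fun g =>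
    (hP.comp (measurable_id.prodMk (hm g))).imp (Measurable.exists fun f =>
      Measurable.eq (hm _) (hm g)))

end Pool.Agent.P.MP_91e65d_lc.Ws
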