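import Pool.Agent.P.MP_91e65d_lc.Tr.Main
import Pool.Agent.P.MP_91e65d_lc.Ws.Defs

set_option autoImplicit false

namespace Pool.Agent.P.MP_91e65d_lc.Ws

open Set Pool.Agent.P.MP_91e65d_lc.Tr
open scoped Pointwise

/-- One round of the Cole-Vishkin colour reduction. -/
lemma exists_cv : ∃ cv : ℕ → ℕ → ℕ, (∀ a b b', a ≠ b → cv a b ≠ cv b b') ∧
    ∀ m a b, 0 < m → a < 2 ^ m → b < 2 ^ m → cv a b < 2 * m := by
  have h : ∀ a b : ℕ, ∃ i, (a ≠ b → a.testBit i ≠ b.testBit i) ∧ (a = b → i = 0) := fun a b => by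
    by_cases h : a = b
    · exact ⟨0, fun h' => absurd h h', fun _ => rfl⟩
    · by_contra hn
      push Not at hn
      exact h (Nat.eq_of_testBit_eq fun i => by
        by_contra hi
        exact h (hn i fun _ => hi).1)
  choose i h1 h2 using h
  refine ⟨fun a b => 2 * i a b + (a.testBit (i a b)).toNat, fun a b b' hab h => ?_,
    fun m a b hm ha hb => ?_⟩
  · have t1 := Bool.toNat_le (a.testBit (i a b))
    have t2 := Bool.toNat_le (b.testBit (i b b'))
    have e : i a b = i b b' := by dsimp only at h; omega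
    refine h1 a b hab ?_
    dsimp only at h
    rw [← e] at h
    have := Nat.add_left_cancel h
    revert this
    cases a.testBit (i a b) <;> cases b.testBit (i a b) <;> simp
  · have t1 := Bool.toNat_le (a.testBit (i a b))
    have : i a b < m := by
      by_cases hab : a = b
      · rw [h2 a b hab]; exact hm
      · by_contra hn
        have hp : 2 ^ m ≤ 2 ^ i a b := Nat.pow_le_pow_right (by norm_num) (by omega)
        exact h1 a b hab ((Nat.testBit_lt_two_pow (ha.trans_le hp)).trans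
          (Nat.testBit_lt_two_pow (hb.trans_le hp)).symm)
    dsimp only
    omega

lemma tower_pos : ∀ n, 0 < tower n
  | 0 => Nat.one_pos
  | _ + 1 => Nat.two_pow_pos _

variable {Γ X : Type*} [Group Γ] [MulAction Γ X]

/-- Invariance under a set of group elements. -/
def Inv {β : Type*} (B : Set Γ) (f : X → β) : Prop := ∀ a ∈ B, ∀ x, f (a • x) = f x

/-- Conjugation by `U` raises the level by one. -/
def Filt (U : Set Γ) (B : ℕ → Set Γ) : Prop := ∀ n, ∀ γ ∈ U, ∀ a ∈ B n, γ * a * γ⁻¹ ∈ B (n + 1)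

variable {U : Set Γ} {B : ℕ → Set Γ}

lemma Inv.shift {β : Type*} {f : X → β} (hB : Filt U B) {n : ℕ} (h : Inv (B (n + 1)) f) {γ : Γ}
    (hγ : γ ∈ U) : Inv (B n) fun x => f (γ • x) := fun a ha x => by
  have := h _ (hB n γ hγ a ha) (γ • x)
  simpa [mul_smul] using this

lemma Inv.down {β : Type*} {f : X → β} (hB : Filt U B) (h1 : 1 ∈ U) {n : ℕ} :
    ∀ {k : ℕ}, Inv (B (n + k)) f → Inv (B n) f
  | 0, h => h
  | _ + 1, h => Inv.down hB h1 (by simpa using Inv.shift hB h h1)

variable [MeasurableSpace X]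

lemma reduce (hm : ∀ γ : Γ, Measurable fun x : X => γ • x) (hB : Filt U B) (h1 : 1 ∈ U) {γ : Γ}
    (hγ : γ ∈ U) (n L : ℕ) : ∀ c : X → ℕ, Measurable c → (∀ x, c x < 8 * tower L) →
      Inv (B (n + L)) c → ∃ c' : X → ℕ, Measurable c' ∧ (∀ x, c' x < 8) ∧ Inv (B n) c' ∧
        ∀ x, c x ≠ c (γ • x) → c' x ≠ c' (γ • x) := by
  obtain ⟨cv, v1, v2⟩ := exists_cv
  induction L with
  | zero => exact fun c c1 c2 c3 => ⟨c, c1, c2, c3, fun _ h => h⟩
  | succ L ih =>
    intro c c1 c2 c3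
    have hb : ∀ x, c x < 2 ^ (tower L + 3) := fun x => by
      rw [pow_add, mul_comm]; exact c2 x
    obtain ⟨c', d1, d2, d3, d4⟩ := ih (fun x => cv (c x) (c (γ • x)))
      ((Measurable.of_discrete (f := fun p : ℕ × ℕ => cv p.1 p.2)).comp
        (c1.prodMk (c1.comp (hm γ))))
      (fun x => by
        have := v2 _ _ _ (by omega) (hb x) (hb (γ • x))
        have := tower_pos L
        omega)
      (fun a ha x => by
        have e1 := Inv.down hB h1 (k := 1) c3 a ha x
        have e2 := Inv.shift hB c3 hγ a ha x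
        dsimp only at e2 ⊢
        rw [e1, e2])
    exact ⟨c', d1, d2, d3, fun x h => d4 x (v1 _ _ _ h)⟩

lemma greedy (hm : ∀ γ : Γ, Measurable fun x : X => γ • x) (hB : Filt U B) (h1 : 1 ∈ U)
    (hU : U.Countable) (hi : ∀ γ ∈ U, γ⁻¹ ∈ U) {β : Type*} {κ : X → β}
    (κm : ∀ i, Measurable fun x => κ x = i) (s : Finset β) : ∀ n, Inv (B (n + s.card)) κ →
      ∃ M : X → Prop, Measurable M ∧ Inv (B n) M ∧
        (∀ x, ∀ γ ∈ U, M x → M (γ • x) → κ x = κ (γ • x)) ∧
        ∀ x, κ x ∈ s → ∃ γ ∈ U, M (γ • x) := by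
  classical
  have := hU.to_subtype
  induction s using Finset.induction_on with
  | empty => exact fun n _ => ⟨fun _ => False, measurable_const, fun _ _ _ => rfl,
      fun _ _ _ h => h.elim, fun x h => by simp at h⟩
  | @insert i s hi' ih =>
    intro n h
    rw [Finset.card_insert_of_notMem hi'] at h
    obtain ⟨M, m1, m2, m3, m4⟩ := ih (n + 1) (by rwa [add_right_comm])
    refine ⟨fun x => M x ∨ (κ x = i ∧ ∀ γ : U, ¬ M (γ.1 • x)),
      m1.or ((κm i).and (Measurable.forall fun γ => (m1.comp (hm γ)).not)), fun a ha x => ?_,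
      ?_, fun x hx => ?_⟩
    · have e1 := Inv.down hB h1 (k := 1) m2 a ha x
      have e2 := Inv.down hB h1 h a ha x
      have e3 := fun γ : U => Inv.shift hB m2 γ.2 a ha x
      dsimp only at e3 ⊢
      simp only [e1, e2, e3]
    · rintro x γ hγ (h | h) (h' | h')
      · exact m3 x γ hγ h h'
      · exact (h'.2 ⟨γ⁻¹, hi γ hγ⟩ (by simpa using h)).elim
      · exact (h.2 ⟨γ, hγ⟩ h').elim
      · exact h.1.trans h'.1.symm
    · rcases Finset.mem_insert.1 hx with hx | hx
      · by_cases h : ∀ γ : U, ¬ M (γ.1 • x)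
        · exact ⟨1, h1, Or.inr (by simpa [hx] using h)⟩
        · push Not at h
          obtain ⟨γ, h⟩ := h
          exact ⟨γ, γ.2, Or.inl h⟩
      · obtain ⟨γ, hγ, h⟩ := m4 x hx
        exact ⟨γ, hγ, Or.inl h⟩

/-- A Borel graph of degree at most `d` has a Borel colouring with `d + 1` colours. -/
lemma colour [StandardBorelSpace X] {R : X → X → Prop} (s : Finset (X → X))
    (s2 : ∀ e ∈ s, Measurable e) (s3 : ∀ x y, R x y → ∃ e ∈ s, e x = y)
    (hR : ∀ x y, R x y → R y x) :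
    ∃ c : X → ℕ, Measurable c ∧ (∀ x, c x ≤ s.card) ∧ ∀ x y, R x y → c x = c y → x = y := by
  classical
  obtain ⟨c0, -, c0m, -, c0p⟩ := Enum.colour (R := R) ⟨s, s.finite_toSet, s2, s3⟩ hR
  have := s.finite_toSet.countable.to_subtype
  have mex : ∀ g : {g : X → ℕ // Measurable g}, ∃ g' : {g : X → ℕ // Measurable g},
      ∀ x, g'.1 x ≤ s.card ∧ ∀ e : s, ¬ g.1 (e.1 x) = g'.1 x := fun g => by
    have h : ∀ x, ∃ k, k ≤ s.card ∧ ∀ e : s, ¬ g.1 (e.1 x) = k := fun x => by
      obtain ⟨k, k1, k2⟩ := Finset.exists_mem_notMem_of_card_lt_card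
        (s := s.image fun e => g.1 (e x)) (t := Finset.range (s.card + 1))
        (by simpa using Nat.lt_succ_of_le Finset.card_image_le)
      exact ⟨k, Nat.le_of_lt_succ (Finset.mem_range.1 k1),
        fun e h => k2 (Finset.mem_image.2 ⟨e.1, e.2, h⟩)⟩
    exact ⟨⟨fun x => Nat.find (h x), meas_find h fun k => measurable_const.and
      (Measurable.forall fun e => (Measurable.eq (g.2.comp (s2 _ e.2)) measurable_const).not)⟩,
      fun x => Nat.find_spec (h x)⟩
  choose M hM using mex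
  let C : ℕ → {g : X → ℕ // Measurable g} := fun n => Nat.rec ⟨fun _ => 0, measurable_const⟩
    (fun n g => ⟨fun x => if c0 x = n then (M g).1 x else g.1 x,
      Measurable.ite (c0m (measurableSet_singleton n)) (M g).2 g.2⟩) n
  have C1 : ∀ x, (C (c0 x + 1)).1 x = (M (C (c0 x))).1 x := fun x => if_pos rfl
  have C2 : ∀ x m, c0 x + 1 ≤ m → (C m).1 x = (C (c0 x + 1)).1 x := fun x m hm => by
    induction hm with
    | refl => rfl
    | @step m hm ih => exact (if_neg (Nat.lt_of_succ_le hm).ne).trans ih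
  have C3 : ∀ x y, R x y → c0 y < c0 x → (C (c0 x + 1)).1 x ≠ (C (c0 y + 1)).1 y :=
    fun x y hxy hlt h => by
      obtain ⟨e, he, rfl⟩ := s3 x y hxy
      rw [C1, ← C2 _ _ hlt] at h
      exact (hM _ x).2 ⟨e, he⟩ h.symm
  refine ⟨fun x => (C (c0 x + 1)).1 x,
    meas_pick (F := fun n => (C (n + 1)).1) (fun n => (C (n + 1)).2) c0m,
    fun x => (C1 x).trans_le (hM _ x).1, fun x y hxy h => ?_⟩
  rcases lt_trichotomy (c0 x) (c0 y) with h' | h' | h'
  · exact absurd h.symm (C3 y x (hR _ _ hxy) h')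
  · exact c0p x y hxy h'
  · exact absurd h (C3 x y hxy h')

end Pool.Agent.P.MP_91e65d_lc.Ws
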