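import Pool.Agent.P.MP_91e65d_lc.Ws.Local

set_option autoImplicit false

namespace Pool.Agent.P.MP_91e65d_lc.Ws

open Set Pool.Agent.P.MP_91e65d_lc.Tr
open scoped Pointwise

variable {Γ X : Type*} [Group Γ] [MulAction Γ X] [MeasurableSpace X]

/-- A Borel selector for the orbits of a finite subgroup. -/
lemma exists_rep [StandardBorelSpace X] (hm : ∀ γ : Γ, Measurable fun x : X => γ • x)
    (H : Subgroup Γ) (hH : (H : Set Γ).Finite) :
    ∃ ρ : X → X, Measurable ρ ∧ (∀ x, ∃ h ∈ H, h • x = ρ x) ∧ Inv (H : Set Γ) ρ := by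
  obtain ⟨f, hf⟩ := MeasureTheory.exists_measurableEmbedding_real X
  have : Countable H := hH.countable.to_subtype
  obtain ⟨g, hg⟩ := exists_surjective_nat H
  obtain ⟨ρ, r1, r2⟩ := exists_sel (e := fun i (x : X) => (g i).1 • x) (fun i => hm _)
    (P := fun x y => (∃ h : H, h.1 • x = y) ∧ ∀ h : H, f y ≤ f (h.1 • x))
    ((Measurable.exists fun h : H =>
      Measurable.eq ((hm h).comp measurable_fst) measurable_snd).and
      (Measurable.forall fun h : H => measurableSet_setOfPred.1 (measurableSet_le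
        (hf.measurable.comp measurable_snd) (hf.measurable.comp ((hm h).comp measurable_fst)))))
    (fun x y ⟨⟨h, e⟩, _⟩ => let ⟨i, hi⟩ := hg h; ⟨i, by rw [hi, e]⟩)
    (fun x => by
      obtain ⟨h, h1, h2⟩ := Set.exists_min_image (H : Set Γ) (fun h => f (h • x)) hH ⟨1, H.one_mem⟩
      exact ⟨h • x, ⟨⟨h, h1⟩, rfl⟩, fun k => h2 k k.2⟩)
  refine ⟨ρ, r1, fun x => let ⟨h, e⟩ := (r2 x).1; ⟨h, h.2, e⟩, fun a ha x => ?_⟩
  obtain ⟨⟨h, e⟩, e'⟩ := r2 x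
  obtain ⟨⟨k, d⟩, d'⟩ := r2 (a • x)
  refine hf.injective (le_antisymm ?_ ?_)
  · simpa [mul_smul, e] using d' (h * (⟨a, ha⟩ : H)⁻¹)
  · simpa [mul_smul, d] using e' (k * (⟨a, ha⟩ : H))

lemma two_sq_lt (t : ℕ) : 2 * t ^ 2 < 8 * 2 ^ 2 ^ t := by
  have h1 : t < 2 ^ t := Nat.lt_two_pow_self
  have h2 : 2 * t ≤ 2 ^ t + 2 := by
    cases t with
    | zero => simp
    | succ t => have : t < 2 ^ t := Nat.lt_two_pow_self; rw [pow_succ]; omega
  calc 2 * t ^ 2 < 2 * (2 ^ t) ^ 2 := by gcongr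
    _ = 2 ^ (2 * t + 1) := by ring
    _ ≤ 2 ^ (2 ^ t + 3) := Nat.pow_le_pow_right (by norm_num) (by omega)
    _ = 8 * 2 ^ 2 ^ t := by ring

/-- An `H`-invariant colouring that separates `x` from `γ • x` whenever their orbits differ. -/
lemma inv_colour [StandardBorelSpace X] (hm : ∀ γ : Γ, Measurable fun x : X => γ • x)
    (H : Subgroup Γ) {L : ℕ} (hH : (H : Set Γ).encard ≤ tower L) {ρ : X → X} (r1 : Measurable ρ)
    (r2 : ∀ x, ∃ h ∈ H, h • x = ρ x) (r3 : Inv (H : Set Γ) ρ) (γ : Γ) :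
    ∃ c : X → ℕ, Measurable c ∧ (∀ x, c x < 8 * tower (L + 2)) ∧ Inv (H : Set Γ) c ∧
      ∀ x, c x = c (γ • x) → ρ x = ρ (γ • x) := by
  classical
  have hf : (H : Set Γ).Finite := finite_of_encard_le_coe hH
  have hc : hf.toFinset.card ≤ tower L := by
    rw [hf.encard_eq_coe_toFinset_card] at hH
    exact_mod_cast hH
  let W : Finset Γ := hf.toFinset * {γ, γ⁻¹} * hf.toFinset
  have hW : ∀ g, g ∈ W ↔ ∃ h ∈ H, ∃ k ∈ H, g = h * γ * k ∨ g = h * γ⁻¹ * k := fun g => by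
    simp only [W, Finset.mem_mul, Finite.mem_toFinset, SetLike.mem_coe, Finset.mem_insert,
      Finset.mem_singleton]
    constructor
    · rintro ⟨_, ⟨h, h1, _, rfl | rfl, rfl⟩, k, k1, rfl⟩
      exacts [⟨h, h1, k, k1, Or.inl rfl⟩, ⟨h, h1, k, k1, Or.inr rfl⟩]
    · rintro ⟨h, h1, k, k1, rfl | rfl⟩
      exacts [⟨_, ⟨h, h1, _, Or.inl rfl, rfl⟩, k, k1, rfl⟩,
        ⟨_, ⟨h, h1, _, Or.inr rfl, rfl⟩, k, k1, rfl⟩]
  obtain ⟨c, c1, c2, c3⟩ := colour (R := fun x y : X => ∃ g ∈ W, g • x = y)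
    (W.image fun g x => g • x) (fun e he => by
      obtain ⟨g, -, rfl⟩ := Finset.mem_image.1 he
      exact hm g)
    (fun x y ⟨g, hg, e⟩ => ⟨_, Finset.mem_image_of_mem _ hg, e⟩)
    (by
      rintro x _ ⟨g, hg, rfl⟩
      refine ⟨g⁻¹, ?_, inv_smul_smul g x⟩
      obtain ⟨h, h1, k, k1, rfl | rfl⟩ := (hW g).1 hg
      · exact (hW _).2 ⟨_, H.inv_mem k1, _, H.inv_mem h1, Or.inr (by group)⟩
      · exact (hW _).2 ⟨_, H.inv_mem k1, _, H.inv_mem h1, Or.inl (by group)⟩)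
  refine ⟨fun x => c (ρ x), c1.comp r1, fun x => ?_, fun a ha x => congrArg c (r3 a ha x),
    fun x hx => c3 _ _ ?_ hx⟩
  · have h2 : ({γ, γ⁻¹} : Finset Γ).card ≤ 2 := Finset.card_le_two
    calc c (ρ x) ≤ W.card := (c2 _).trans Finset.card_image_le
      _ ≤ hf.toFinset.card * ({γ, γ⁻¹} : Finset Γ).card * hf.toFinset.card :=
        Finset.card_mul_le.trans (Nat.mul_le_mul_right _ Finset.card_mul_le)
      _ ≤ tower L * 2 * tower L := by gcongr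
      _ = 2 * tower L ^ 2 := by ring
      _ < _ := two_sq_lt _
  · obtain ⟨h, h1, h2⟩ := r2 x
    obtain ⟨k, k1, k2⟩ := r2 (γ • x)
    exact ⟨k * γ * h⁻¹, (hW _).2 ⟨k, k1, _, H.inv_mem h1, Or.inl rfl⟩, by
      rw [← h2, ← k2]; simp [mul_smul]⟩

lemma mem_pow_add {T : Set Γ} {m n : ℕ} {g h : Γ} (hg : g ∈ T ^ m) (hh : h ∈ T ^ n) :
    g * h ∈ T ^ (m + n) := pow_add T m n ▸ Set.mul_mem_mul hg hh

lemma mem_pow_inv {T : Set Γ} (hT : T⁻¹ = T) {n : ℕ} {g : Γ} (hg : g ∈ T ^ n) : g⁻¹ ∈ T ^ n := by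
  rw [← hT, inv_pow]; exact Set.inv_mem_inv.2 hg

/-- One scale. -/
theorem one_scale [StandardBorelSpace X] (hm : ∀ γ : Γ, Measurable fun x : X => γ • x)
    (A : Subgroup Γ) [hA : A.Normal] (hs : SubTower A) {U : Set Γ} (hU : U.Finite) (h1 : 1 ∈ U)
    (hi : U⁻¹ = U) : ∃ (φ : X → X) (σ : X → Γ) (n : ℕ), Measurable φ ∧ (∀ x, σ x ∈ U) ∧
      (Subgroup.closure ((A : Set Γ) ∩ U ^ n) : Set Γ).Finite ∧
      (∀ x, ∃ h ∈ Subgroup.closure ((A : Set Γ) ∩ U ^ n), (h * σ x) • x = φ x) ∧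
      ∀ x, ∀ t ∈ U, ∀ t' ∈ U, ∀ u ∈ U, σ (t' • x) * t' * (σ (t • x) * t)⁻¹ * u⁻¹ ∈ A →
        φ (t • x) = φ (t' • x) := by
  classical
  have := hU.fintype
  let s : Finset (U → ℕ) := Fintype.piFinset fun _ => Finset.range 8
  obtain ⟨L, L1, L2⟩ := hs U hU (2 * s.card + 11)
  set n := (2 * s.card + 11) * L with hn
  set H := Subgroup.closure ((A : Set Γ) ∩ U ^ n) with hH
  have hf : (H : Set Γ).Finite := finite_of_encard_le_coe L2
  have i1 : ∀ γ ∈ U, γ⁻¹ ∈ U := fun γ h => hi ▸ Set.inv_mem_inv.2 h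
  have p1 : ∀ γ ∈ U, γ ∈ U ^ 1 := fun γ h => by rwa [pow_one]
  let B : ℕ → Set Γ := fun k => A ∩ U ^ (2 * k + 5)
  have hB : Filt U B := fun k γ hγ a ha => ⟨hA.conj_mem a ha.1 γ, by
    have := mem_pow_add (mem_pow_add (p1 γ hγ) ha.2) (p1 _ (i1 γ hγ))
    rwa [show 1 + (2 * k + 5) + 1 = 2 * (k + 1) + 5 by ring] at this⟩
  have BH : ∀ k, k ≤ s.card + (L + 2) → B k ⊆ H := fun k hk a ha =>
    Subgroup.subset_closure ⟨ha.1, Set.pow_subset_pow_right h1 (by nlinarith) ha.2⟩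
  obtain ⟨ρ, r1, r2, r3⟩ := exists_rep hm H hf
  have key : ∀ γ : U, ∃ c : X → ℕ, Measurable c ∧ (∀ x, c x < 8) ∧ Inv (B s.card) c ∧
      ∀ x, c x = c (γ.1 • x) → ρ x = ρ (γ.1 • x) := fun γ => by
    obtain ⟨c, c1, c2, c3, c4⟩ := inv_colour hm H L2 r1 r2 r3 γ.1
    obtain ⟨c', d1, d2, d3, d4⟩ := reduce hm hB h1 γ.2 s.card (L + 2) c c1 c2
      fun a ha => c3 a (BH _ le_rfl ha)
    exact ⟨c', d1, d2, d3, fun x h => c4 x (by_contra fun hn => d4 x hn h)⟩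
  choose c c1 c2 c3 c4 using key
  obtain ⟨M, m1, m2, m3, m4⟩ := greedy hm hB h1 hU.countable i1 (κ := fun x γ => c γ x)
    (fun i => by
      simp only [funext_iff]
      exact Measurable.forall fun γ => Measurable.eq (c1 γ) measurable_const) s 0
    (fun a ha x => funext fun γ => c3 γ a (by rwa [zero_add] at ha) x)
  have : Nonempty U := ⟨⟨1, h1⟩⟩
  obtain ⟨g, hg⟩ := exists_surjective_nat U
  have ex : ∀ x, ∃ i, M ((g i).1 • x) := fun x => by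
    obtain ⟨γ, hγ, h⟩ := m4 x (Fintype.mem_piFinset.2 fun γ => Finset.mem_range.2 (c2 γ x))
    obtain ⟨i, e⟩ := hg ⟨γ, hγ⟩
    exact ⟨i, by rwa [e]⟩
  have sp : ∀ x, M ((g (Nat.find (ex x))).1 • x) := fun x => Nat.find_spec (ex x)
  refine ⟨fun x => ρ ((g (Nat.find (ex x))).1 • x), fun x => (g (Nat.find (ex x))).1, n,
    r1.comp (meas_pick (F := fun i (x : X) => (g i).1 • x) (fun i => hm _)
      (meas_find ex fun k => m1.comp (hm _))), fun x => (g _).2, hf, fun x => ?_,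
    fun x t ht t' ht' u hu hb => ?_⟩
  · obtain ⟨h, e1, e2⟩ := r2 ((g (Nat.find (ex x))).1 • x)
    exact ⟨h, e1, by rw [mul_smul, e2]⟩
  · have q := sp (t • x)
    have q' := sp (t' • x)
    have w := (g (Nat.find (ex (t • x)))).2
    have w' := (g (Nat.find (ex (t' • x)))).2
    dsimp only at hb ⊢
    generalize (g (Nat.find (ex (t • x)))).1 = a at *
    generalize (g (Nat.find (ex (t' • x)))).1 = a' at *
    have hb' : a' * t' * (a * t)⁻¹ * u⁻¹ ∈ B 0 := ⟨hb, by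
      simpa only [] using mem_pow_add (mem_pow_add (mem_pow_add (p1 _ w') (p1 _ ht'))
        (mem_pow_inv hi (mem_pow_add (p1 _ w) (p1 _ ht)))) (p1 _ (i1 u hu))⟩
    have e : a' • t' • x = (a' * t' * (a * t)⁻¹ * u⁻¹) • u • a • t • x := by
      simp only [smul_smul]; congr 1; group
    rw [e, m2 _ hb'] at q'
    rw [e, r3 _ (BH 0 (Nat.zero_le _) hb')]
    exact c4 ⟨u, hu⟩ _ (congrFun (m3 _ u hu q q') ⟨u, hu⟩)

lemma exists_doubling {Q : Type*} [Group Q] (h : LocPolyGrowth Q) : ∃ K : ℕ, ∀ S : Set Q,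
    S.Finite → S.Nonempty → ∃ m, 1 ≤ m ∧ (S ^ (9 * m)).ncard ≤ K * (S ^ m).ncard := by
  obtain ⟨d, hd⟩ := h
  refine ⟨2 * 9 ^ d, fun S hS h0 => ?_⟩
  obtain ⟨C, hC⟩ := hd S hS
  by_contra hn
  push Not at hn
  have key : ∀ j, (2 * 9 ^ d) ^ j ≤ (S ^ 9 ^ j).ncard := fun j => by
    induction j with
    | zero => simpa [Nat.one_le_iff_ne_zero, ← Nat.pos_iff_ne_zero] using (ncard_pos hS).2 h0
    | succ j ih =>
      have := hn (9 ^ j) (Nat.one_le_pow _ _ (by norm_num))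
      rw [pow_succ', pow_succ' 9 j]
      exact (Nat.mul_le_mul_left _ ih).trans this.le
  have h1 := (key (C * 2 ^ d)).trans (hC _)
  set j := C * 2 ^ d with hj
  have h2 : (9 ^ j + 1) ^ d ≤ 2 ^ d * (9 ^ d) ^ j := by
    rw [← pow_mul, mul_comm d j, pow_mul 9 j d, ← mul_pow]
    have : 1 ≤ 9 ^ j := Nat.one_le_pow _ _ (by norm_num)
    gcongr
    omega
  have h3 : 2 ^ j * (9 ^ d) ^ j ≤ j * (9 ^ d) ^ j := by
    rw [← mul_pow, hj, mul_assoc]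
    exact h1.trans (Nat.mul_le_mul_left _ h2)
  exact absurd (Nat.le_of_mul_le_mul_right h3 (by positivity)) (Nat.lt_two_pow_self).not_ge

lemma fin_pow {T : Set Γ} (h : T.Finite) : ∀ n : ℕ, (T ^ n).Finite
  | 0 => by simp
  | n + 1 => pow_succ T n ▸ (fin_pow h n).mul h

omit [MeasurableSpace X] in
lemma rn_iff {T : Set Γ} (h1 : 1 ∈ T) (n : ℕ) (x : X) :
    ∀ y, Rn (fun a b : X => ∃ t ∈ T, t • a = b) n x y ↔ ∃ t ∈ T ^ n, t • x = y := by
  induction n with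
  | zero => intro y; simp [Rn]
  | succ n ih =>
    intro y
    simp only [Rn, ih, pow_succ']
    constructor
    · rintro (⟨t, ht, rfl⟩ | ⟨_, ⟨t, ht, rfl⟩, u, hu, rfl⟩)
      · exact ⟨1 * t, Set.mul_mem_mul h1 ht, by rw [one_mul]⟩
      · exact ⟨u * t, Set.mul_mem_mul hu ht, mul_smul _ _ _⟩
    · rintro ⟨_, ⟨u, hu, t, ht, rfl⟩, rfl⟩
      exact Or.inr ⟨_, ⟨t, ht, rfl⟩, u, hu, (mul_smul _ _ _).symm⟩

lemma closure_pow {T S : Set Γ} (h1 : 1 ∈ T) (hi : T⁻¹ = T) {n : ℕ} (hS : S ⊆ T ^ n)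
    (hf : (Subgroup.closure S : Set Γ).Finite) : ∃ D, (Subgroup.closure S : Set Γ) ⊆ T ^ D := by
  have : ∀ g : Γ, ∃ D, g ∈ Subgroup.closure S → g ∈ T ^ D := fun g => by
    by_cases hg : g ∈ Subgroup.closure S
    · suffices ∃ D, g ∈ T ^ D from this.imp fun _ h _ => h
      induction hg using Subgroup.closure_induction with
      | mem g hg => exact ⟨n, hS hg⟩
      | one => exact ⟨0, by simp⟩
      | mul g h _ _ e1 e2 =>
        obtain ⟨⟨a, e1⟩, b, e2⟩ := And.intro e1 e2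
        exact ⟨_, mem_pow_add e1 e2⟩
      | inv g _ e => exact e.imp fun _ => mem_pow_inv hi
    · exact ⟨0, fun h => absurd h hg⟩
  choose D hD using this
  obtain ⟨b, hb⟩ := (hf.image D).bddAbove
  exact ⟨b, fun g hg => Set.pow_subset_pow_right h1 (hb ⟨g, hg, rfl⟩) (hD g hg)⟩

theorem hyperfinite_orbitRel [Countable Γ] [StandardBorelSpace X]
    (hm : ∀ γ : Γ, Measurable fun x : X => γ • x) (A : Subgroup Γ) [A.Normal]
    (hQ : LocPolyGrowth (Γ ⧸ A)) (hA : SubTower A) : Hyperfinite (MulAction.orbitRel Γ X) := by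
  classical
  obtain ⟨K, hK⟩ := exists_doubling hQ
  obtain ⟨g', hg'⟩ := exists_surjective_nat Γ
  let g : ℕ → Γ := fun i => Nat.casesOn i 1 g'
  have hg : ∀ γ, ∃ i, g i = γ := fun γ => let ⟨i, e⟩ := hg' γ; ⟨i + 1, e⟩
  let T : ℕ → Set Γ := fun j => g '' Iic j ∪ (g '' Iic j)⁻¹
  have T1 : ∀ j, 1 ∈ T j := fun j => Or.inl ⟨0, Nat.zero_le j, rfl⟩
  have Ti : ∀ j, (T j)⁻¹ = T j := fun j => by simp only [T, union_inv, inv_inv, union_comm]
  have Tf : ∀ j, (T j).Finite := fun j => ((finite_Iic j).image g).union ((finite_Iic j).image g).inv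
  have Tm : ∀ i j, i ≤ j → T i ⊆ T j := fun i j h =>
    union_subset_union (image_mono (Iic_subset_Iic.2 h))
      (inv_subset_inv.2 (image_mono (Iic_subset_Iic.2 h)))
  have hE : ∀ x y : X, MulAction.orbitRel Γ X x y ↔ ∃ γ : Γ, γ • x = y := fun x y => by
    rw [Setoid.comm', MulAction.orbitRel_apply]; rfl
  refine hyperfinite_of_scales (e := fun i x => g i • x) (fun i => hm _) (one_smul Γ)
    (fun i x => (hE _ _).2 ⟨_, rfl⟩)
    (fun x y h => let ⟨γ, e⟩ := (hE _ _).1 h; let ⟨i, e'⟩ := hg γ; ⟨i, by rw [← e, ← e']⟩)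
    (G := fun j a b => ∃ t ∈ T j, t • a = b) (fun i j h x y ⟨t, ht, e⟩ => ⟨t, Tm i j h ht, e⟩)
    (fun j x y ⟨t, ht, e⟩ => ⟨t⁻¹, Ti j ▸ Set.inv_mem_inv.2 ht, by rw [← e, inv_smul_smul]⟩)
    (fun j => ⟨(fun t x => t • x) '' T j, (Tf j).image _, fun _ ⟨t, _, e⟩ => e ▸ hm t,
      fun x y ⟨t, ht, e⟩ => ⟨_, ⟨t, ht, rfl⟩, e⟩⟩) (fun j x y ⟨t, _, e⟩ => (hE _ _).2 ⟨t, e⟩)
    (fun x y h => ?_) (k := K) fun j r => ?_
  · obtain ⟨γ, e⟩ := (hE _ _).1 h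
    obtain ⟨i, rfl⟩ := hg γ
    exact ⟨i + 1, ((Rn.refl 0 x).tail ⟨g i, Or.inl ⟨i, i.le_succ, rfl⟩, e⟩).mono (by omega)⟩
  let π := QuotientGroup.mk' A
  obtain ⟨m, m1, m2⟩ := hK (π '' T j ^ r) ((fin_pow (Tf j) r).image π)
    ((Set.Nonempty.pow ⟨1, T1 j⟩).image π)
  simp only [← Set.image_pow, ← pow_mul] at m2
  have fin : ∀ n, (π '' T j ^ n).Finite := fun n => (fin_pow (Tf j) n).image π
  obtain ⟨F, -, F1, F2, F3⟩ := Set.ruzsa_covering_mul (K := K) (fin (r * m * 8)) (fin (r * m))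
    ((Set.Nonempty.pow ⟨1, T1 j⟩).image π) (by
      rw [← Set.image_mul, ← pow_add, show r * m * 8 + r * m = r * (9 * m) by ring]
      exact_mod_cast m2)
  obtain ⟨φ, σ, n, p1, p2, p3, p4, p5⟩ := one_scale hm A hA (fin_pow (Tf j) (r * m * 4))
    (Set.one_mem_pow (T1 j)) (by rw [← inv_pow (T j), Ti])
  obtain ⟨D, hD⟩ := closure_pow (T1 j) (Ti j) (n := r * m * 4 * n)
    (fun _ h => by rw [pow_mul]; exact h.2) p3
  refine ⟨φ, D + r * m * 4, p1, fun x => ?_, fun x => ?_⟩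
  · obtain ⟨h, e1, e2⟩ := p4 x
    exact (rn_iff (T1 j) _ _ _).2 ⟨_, mem_pow_add (hD e1) (p2 x), e2⟩
  let P : Γ ⧸ A → Γ → Prop := fun f t => t ∈ T j ^ (r * m * 4) ∧ ∃ v ∈ T j ^ (r * m),
    ∃ w ∈ T j ^ (r * m), π (σ (t • x) * t)⁻¹ = f * (π v / π w)
  refine ⟨F3.toFinset.image fun f => φ (Classical.epsilon (P f) • x),
    Finset.card_image_le.trans ?_, fun y hy => ?_⟩
  · rw [← Set.ncard_eq_toFinset_card F F3]
    exact_mod_cast F1
  obtain ⟨t, ht, rfl⟩ := (rn_iff (T1 j) _ _ _).1 hy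
  replace ht : t ∈ T j ^ (r * m * 4) := Set.pow_subset_pow_right (T1 j) (by nlinarith) ht
  have := mem_pow_inv (Ti j) (mem_pow_add (p2 (t • x)) ht)
  rw [show r * m * 4 + r * m * 4 = r * m * 8 by ring] at this
  obtain ⟨f, hf, _, ⟨_, ⟨v, hv, rfl⟩, _, ⟨w, hw, rfl⟩, rfl⟩, e⟩ := F2 (mem_image_of_mem π this)
  obtain ⟨ht', v', hv', w', hw', e'⟩ : P f (Classical.epsilon (P f)) :=
    Classical.epsilon_spec (p := P f) ⟨t, ht, v, hv, w, hw, e.symm⟩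
  refine Finset.mem_image.2 ⟨f, F3.mem_toFinset.2 hf, (p5 x t ht _ ht' (w' * v'⁻¹ * v * w⁻¹)
    ?_ ?_).symm⟩
  · have := mem_pow_add (mem_pow_add (mem_pow_add hw' (mem_pow_inv (Ti j) hv')) hv)
      (mem_pow_inv (Ti j) hw)
    rwa [show r * m + r * m + r * m + r * m = r * m * 4 by ring] at this
  · rw [← QuotientGroup.eq_one_iff]
    change π _ = 1
    dsimp only at e
    generalize σ (Classical.epsilon (P f) • x) * Classical.epsilon (P f) = a at e' ⊢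
    rw [map_mul, map_mul, ← e, ← inv_inv a, map_inv, e']
    simp only [map_mul, map_inv, div_eq_mul_inv]
    group

end Pool.Agent.P.MP_91e65d_lc.Ws
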