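import Pool.Agent.P.MP_91e65d_lc.Ws.Loc

set_option autoImplicit false

namespace Pool.Agent.P.MP_91e65d_lc.Ws

open Set Pool.Agent.P.MP_91e65d_lc.Tr
open scoped Pointwise

lemma encard_biUnion_mul {ι α : Type*} {N : Set ι} {C : ι → Set α} {n c : ℕ} (hN : N.encard ≤ n)
    (hC : ∀ i ∈ N, (C i).encard ≤ c) : (⋃ i ∈ N, C i).encard ≤ (n * c : ℕ) := by
  have key : (⋃ i ∈ N, C i).encard ≤ N.encard * c := by
    have hf := finite_of_encard_le_coe hN
    clear hN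
    induction N, hf using Set.Finite.induction_on with
    | empty => simp
    | @insert a s ha _ ih =>
      rw [biUnion_insert, encard_insert_of_notMem ha, add_mul, one_mul, add_comm]
      exact (encard_union_le _ _).trans (add_le_add (hC a (mem_insert _ _))
        (ih fun i hi => hC i (mem_insert_of_mem _ hi)))
  exact key.trans (by push_cast; gcongr)

variable {Γ X : Type*} [Group Γ] [MulAction Γ X]

lemma ncard_pow_le {T : Set Γ} : ∀ n : ℕ, (T ^ n).ncard ≤ T.ncard ^ n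
  | 0 => by rw [pow_zero, pow_zero]; exact (ncard_singleton (1 : Γ)).le
  | n + 1 => by
    rw [pow_succ, pow_succ]
    exact Set.natCard_mul_le.trans (Nat.mul_le_mul_right _ (ncard_pow_le n))

lemma conj_pow_mem {V V' : Set Γ} {g : Γ} (h : ∀ v ∈ V, g * v * g⁻¹ ∈ V') :
    ∀ (n : ℕ) (v : Γ), v ∈ V ^ n → g * v * g⁻¹ ∈ V' ^ n
  | 0, v, hv => by simpa using hv
  | n + 1, v, hv => by
    rw [pow_succ] at hv ⊢
    obtain ⟨a, ha, b, hb, rfl⟩ := hv
    exact ⟨_, conj_pow_mem h n a ha, _, h b hb, by simp [mul_assoc]⟩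

/-- `y` lies in the ball of radius `n` around `z`. -/
def Bl (V : Set Γ) (n : ℕ) (z y : X) : Prop := ∃ v ∈ V ^ n, v • z = y

variable {V V' W : Set Γ} {μ ϱ : ℕ} {M : X → Prop}

lemma Bl.mono (h1 : 1 ∈ V) {m n : ℕ} {z y : X} (h : Bl V m z y) (hmn : m ≤ n) : Bl V n z y :=
  let ⟨v, hv, e⟩ := h; ⟨v, Set.pow_subset_pow_right h1 hmn hv, e⟩

lemma Bl.step {n : ℕ} {z y : X} (h : Bl V n z y) {b : Γ} (hb : b ∈ V) :
    Bl V (n + 1) z (b • y) :=
  let ⟨v, hv, e⟩ := h; ⟨b * v, pow_succ' V n ▸ Set.mul_mem_mul hb hv, by rw [mul_smul, e]⟩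

lemma Bl.symm (hi : V⁻¹ = V) {n : ℕ} {z y : X} (h : Bl V n z y) : Bl V n y z :=
  let ⟨v, hv, e⟩ := h; ⟨v⁻¹, mem_pow_inv hi hv, by rw [← e, inv_smul_smul]⟩

lemma pack (hV : V.Finite) (h1 : 1 ∈ V) (hi : V⁻¹ = V) (hV' : V'.Finite) (sub : V ⊆ V')
    (hM : ∀ x, ∀ γ ∈ V ^ (2 * μ), M x → M (γ • x) → x = γ • x)
    (hϱ : (V' ^ (9 * μ)).ncard ≤ ϱ * (V ^ μ).ncard) (y : X) :
    {z | M z ∧ Bl V' (8 * μ) y z}.encard ≤ ϱ := by
  have hf : {z | M z ∧ Bl V' (8 * μ) y z}.Finite :=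
    ((fin_pow hV' (8 * μ)).image fun v => v • y).subset fun z hz => hz.2
  have : ∀ z, ∃ w : Γ, Bl V' (8 * μ) y z → w ∈ V' ^ (8 * μ) ∧ w • y = z := fun z => by
    by_cases h : Bl V' (8 * μ) y z
    · exact h.imp fun _ h _ => h
    · exact ⟨1, fun h' => absurd h' h⟩
  choose w hw using this
  have key := Set.ncard_le_ncard_of_injOn (s := {z | M z ∧ Bl V' (8 * μ) y z} ×ˢ (V ^ μ))
    (t := V' ^ (9 * μ)) (fun p => p.2 * w p.1)
    (fun p hp => by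
      have := mem_pow_add (Set.pow_subset_pow_left sub hp.2) (hw _ hp.1.2).1
      rwa [show μ + 8 * μ = 9 * μ by ring] at this)
    (fun p hp p' hp' e => by
      have e1 : p'.1 = (p'.2⁻¹ * p.2) • p.1 := by
        dsimp only at e
        rw [← (hw _ hp.1.2).2, ← (hw _ hp'.1.2).2, smul_smul, mul_assoc, e, inv_mul_cancel_left]
      have e2 := hM p.1 _ (two_mul μ ▸ mem_pow_add (mem_pow_inv hi hp'.2) hp.2) hp.1.1
        (e1 ▸ hp'.1.1)
      rw [← e1] at e2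
      dsimp only at e
      rw [e2] at e
      exact Prod.ext e2 (mul_right_cancel e)) (fin_pow hV' _)
  rw [ncard_prod] at key
  rw [← hf.cast_ncard_eq, Nat.cast_le]
  exact Nat.le_of_mul_le_mul_right (key.trans hϱ)
    ((ncard_pos (fin_pow hV μ)).2 ⟨1, Set.one_mem_pow h1⟩)

/-- The sphere of index `k` around `z` passes through `y`. -/
def Cut (V : Set Γ) (μ k : ℕ) (z y : X) : Prop :=
  Bl V (2 * μ + 2 * k + 2) z y ∧ ¬ Bl V (2 * μ + 2 * k) z y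

lemma exists_radius (h1 : 1 ∈ V) (hW : W.Finite) (hμ : 0 < μ) {S : X → Prop} {β : ℕ} {z : X}
    (hS : {x | S x ∧ ∃ γ ∈ W, Bl V (4 * μ) z (γ • x)}.encard ≤ β) : ∃ k, k < μ ∧
      {x | S x ∧ ∃ γ ∈ W, Cut V μ k z (γ • x)}.encard ≤ (W.ncard * β / μ : ℕ) := by
  classical
  have hf := finite_of_encard_le_coe hS
  rw [hf.encard_eq_coe_toFinset_card, Nat.cast_le] at hS
  have : ∀ y : X, ∃ k, ∀ k', Cut V μ k' z y → k = k' := fun y => by
    by_cases h : ∃ k, Cut V μ k z y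
    · obtain ⟨k, hk⟩ := h
      refine ⟨k, fun k' hk' => ?_⟩
      by_contra hn
      rcases lt_or_gt_of_ne hn with h | h
      · exact hk'.2 (hk.1.mono h1 (by omega))
      · exact hk.2 (hk'.1.mono h1 (by omega))
    · exact ⟨0, fun k' hk' => (h ⟨k', hk'⟩).elim⟩
  choose f hk using this
  obtain ⟨k, k1, k2⟩ := Finset.exists_card_fiber_lt_of_card_lt_mul
    (s := hW.toFinset ×ˢ hf.toFinset) (t := Finset.range μ) (n := W.ncard * β / μ + 1)
    (f := fun p => f (p.1 • p.2)) (by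
      rw [Finset.card_product, Finset.card_range, ← Set.ncard_eq_toFinset_card W hW]
      exact (Nat.mul_le_mul_left _ hS).trans_lt (Nat.lt_mul_div_succ _ hμ))
  rw [Finset.mem_range] at k1
  refine ⟨k, k1, le_trans (encard_le_encard (t := Prod.snd '' SetLike.coe
    ((hW.toFinset ×ˢ hf.toFinset).filter fun p : Γ × X => f (p.1 • p.2) = k)) ?_) ((encard_image_le _ _).trans ?_)⟩
  · rintro x ⟨hx, γ, hγ, h⟩
    exact ⟨(γ, x), Finset.mem_coe.2 (Finset.mem_filter.2 ⟨Finset.mem_product.2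
      ⟨hW.mem_toFinset.2 hγ, hf.mem_toFinset.2 ⟨hx, γ, hγ, h.1.mono h1 (by omega)⟩⟩, hk _ _ h⟩),
      rfl⟩
  · rw [encard_coe_eq_coe_finsetCard]
    exact_mod_cast Nat.le_of_lt_succ k2

variable [MeasurableSpace X] [Countable Γ]

lemma meas_Bl [MeasurableEq X] (hm : ∀ γ : Γ, Measurable fun x : X => γ • x) (V : Set Γ) (n : ℕ) :
    Measurable fun p : X × X => Bl V n p.1 p.2 :=
  Measurable.exists fun v => measurable_const.and
    (Measurable.eq ((hm v).comp measurable_fst) measurable_snd)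

lemma meas_Cut [MeasurableEq X] (hm : ∀ γ : Γ, Measurable fun x : X => γ • x) (V : Set Γ)
    (μ k : ℕ) : Measurable fun p : X × X => Cut V μ k p.1 p.2 :=
  (meas_Bl hm V _).and (meas_Bl hm V _).not

/-- One layer of the padded decomposition. -/
lemma layer [StandardBorelSpace X] (hm : ∀ γ : Γ, Measurable fun x : X => γ • x)
    (hV : V.Finite) (h1 : 1 ∈ V) (hi : V⁻¹ = V) (hV' : V'.Finite) (sub : V ⊆ V') (hW : W.Finite)
    (cj : ∀ γ ∈ W, ∀ γ' ∈ W, ∀ v ∈ V, γ' * γ⁻¹ * v * (γ' * γ⁻¹)⁻¹ ∈ V') (hμ : 0 < μ)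
    (m1 : Measurable M) (hM : ∀ x, ∀ γ ∈ V ^ (2 * μ), M x → M (γ • x) → x = γ • x)
    (hM' : ∀ x, ∃ γ ∈ V ^ (2 * μ), M (γ • x))
    (hϱ : (V' ^ (9 * μ)).ncard ≤ ϱ * (V ^ μ).ncard) {S : X → Prop} (s1 : Measurable S) {β : ℕ}
    (hS : ∀ z, {x | S x ∧ ∃ γ ∈ W, Bl V (4 * μ) z (γ • x)}.encard ≤ β) :
    ∃ (ψ : X → X) (S' : X → Prop), Measurable ψ ∧ Measurable S' ∧ (∀ y, Bl V (4 * μ) y (ψ y)) ∧
      (∀ x, S x → ¬ S' x → ∀ γ ∈ W, ∀ b ∈ V, ψ (b • γ • x) = ψ (γ • x)) ∧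
      ∀ z, {x | S' x ∧ ∃ γ ∈ W, Bl V (4 * μ) z (γ • x)}.encard ≤
        (W.ncard * (W.ncard * ϱ) * (W.ncard * β / μ) : ℕ) := by
  classical
  have ex := fun z => exists_radius h1 hW hμ (hS z)
  obtain ⟨k, km, k1, k2⟩ : ∃ k : X → ℕ, Measurable k ∧ (∀ z, k z < μ) ∧ ∀ z,
      {x | S x ∧ ∃ γ ∈ W, Cut V μ (k z) z (γ • x)}.encard ≤ (W.ncard * β / μ : ℕ) :=
    ⟨fun z => Nat.find (ex z), meas_find ex fun k => measurable_const.and (meas_card hm
      ((s1.comp measurable_snd).and (Measurable.exists fun γ => measurable_const.and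
        ((meas_Cut hm V μ k).comp (measurable_fst.prodMk ((hm γ).comp measurable_snd)))))
      (fun z x ⟨_, γ, _, ⟨v, _, e⟩, _⟩ => ⟨γ⁻¹ * v, by rw [mul_smul, e, inv_smul_smul]⟩) _),
      fun z => (Nat.find_spec (ex z)).1, fun z => (Nat.find_spec (ex z)).2⟩
  obtain ⟨ψ, p1, p2, p3⟩ := exists_min_sel hm
    (P := fun y z => M z ∧ Bl V (2 * μ + 2 * k z + 1) z y)
    ((m1.comp measurable_snd).and (meas_pick (n := fun p : X × X => k p.2)
      (F := fun n p => Bl V (2 * μ + 2 * n + 1) p.2 p.1)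
      (fun n => (meas_Bl hm V _).comp measurable_swap) (km.comp measurable_snd)))
    (fun y z h => let ⟨v, _, e⟩ := h.2.symm hi; ⟨v, e⟩)
    (fun y => ((fin_pow hV (4 * μ)).image fun v => v • y).subset fun z hz =>
      (hz.2.symm hi).mono h1 (by have := k1 z; omega))
    (fun y => let ⟨γ, hγ, h⟩ := hM' y
      ⟨_, h, (Bl.symm hi ⟨γ, hγ, rfl⟩).mono h1 (by omega)⟩)
  refine ⟨ψ, fun x => S x ∧ ∃ g : Γ, M (g • x) ∧ ∃ γ ∈ W, Cut V μ (k (g • x)) (g • x) (γ • x), p1,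
    s1.and (Measurable.exists fun g => (m1.comp (hm g)).and (Measurable.exists fun γ =>
      measurable_const.and (meas_pick (n := fun x : X => k (g • x))
        (F := fun n x => Cut V μ n (g • x) (γ • x))
        (fun n => (meas_Cut hm V μ n).comp ((hm g).prodMk (hm γ))) (km.comp (hm g))))),
    fun y => ((p2 y).2.symm hi).mono h1 (by have := k1 (ψ y); omega),
    fun x hx hx' γ hγ b hb => p3 _ _ fun z => and_congr_right fun hz => ?_, fun z => ?_⟩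
  · have nc : Bl V (2 * μ + 2 * k z + 2) z (γ • x) → Bl V (2 * μ + 2 * k z) z (γ • x) := fun h => by
      by_contra hn
      obtain ⟨v, -, e⟩ := h.symm hi
      rw [smul_smul] at e
      exact hx' ⟨hx, v * γ, e ▸ hz, γ, hγ, e ▸ ⟨h, hn⟩⟩
    refine ⟨fun h => (nc ?_).mono h1 (by omega), fun h => (nc (h.mono h1 (by omega))).step hb⟩
    have := h.step (hi ▸ Set.inv_mem_inv.2 hb : b⁻¹ ∈ V)
    rwa [inv_smul_smul] at this
  · have e1 : W.encard ≤ W.ncard := hW.cast_ncard_eq.ge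
    refine le_trans (encard_le_encard ?_) (encard_biUnion_mul (encard_biUnion_mul e1 fun γ _ =>
      encard_biUnion_mul e1 fun γ' _ => pack hV h1 hi hV' sub hM hϱ ((γ' * γ⁻¹) • z))
      fun z' _ => k2 z')
    rintro x ⟨⟨hx, g, hg, γ', hγ', h⟩, γ, hγ, v, hv, e⟩
    refine mem_biUnion (x := g • x) (mem_biUnion hγ (mem_biUnion hγ' ⟨hg, ?_⟩)) ⟨hx, γ', hγ', h⟩
    obtain ⟨v', hv', e'⟩ := (h.1.mono h1 (n := 4 * μ) (by have := k1 (g • x); omega)).symm hi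
    refine ⟨v' * (γ' * γ⁻¹ * v * (γ' * γ⁻¹)⁻¹), ?_, ?_⟩
    · have := mem_pow_add (Set.pow_subset_pow_left sub hv') (conj_pow_mem (cj γ hγ γ' hγ') _ v hv)
      rwa [show 4 * μ + 4 * μ = 8 * μ by ring] at this
    · rw [← e', mul_smul, smul_smul (_ * _), inv_mul_cancel_right, mul_smul, e, mul_smul,
        inv_smul_smul]

lemma layers [StandardBorelSpace X] (hm : ∀ γ : Γ, Measurable fun x : X => γ • x)
    (hV : V.Finite) (h1 : 1 ∈ V) (hi : V⁻¹ = V) (hV' : V'.Finite) (sub : V ⊆ V') (hW : W.Finite)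
    (w1 : 1 ∈ W) (cj : ∀ γ ∈ W, ∀ γ' ∈ W, ∀ v ∈ V, γ' * γ⁻¹ * v * (γ' * γ⁻¹)⁻¹ ∈ V') (hμ : 0 < μ)
    (hϱ : (V' ^ (9 * μ)).ncard ≤ ϱ * (V ^ μ).ncard) {D : ℕ}
    (hD : (W.ncard ^ 3 * ϱ) ^ D * (W.ncard * (V ^ (4 * μ)).ncard) < μ ^ D) :
    ∃ ψ : ℕ → X → X, (∀ i, Measurable (ψ i)) ∧ (∀ i y, Bl V (4 * μ) y (ψ i y)) ∧
      ∀ x, ∃ i < D, ∀ γ ∈ W, ∀ b ∈ V, ψ i (b • γ • x) = ψ i (γ • x) := by
  classical
  obtain ⟨M, m1, m2, m3⟩ := exists_net hm (fin_pow hV (2 * μ)) (Set.one_mem_pow h1)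
    fun γ h => mem_pow_inv hi h
  have refl : ∀ y : X, Bl V (4 * μ) y y := fun y => ⟨1, Set.one_mem_pow h1, one_smul _ _⟩
  have key : ∀ D : ℕ, ∃ (ψ : ℕ → X → X) (S : X → Prop) (β : ℕ), (∀ i, Measurable (ψ i)) ∧
      Measurable S ∧ (∀ i y, Bl V (4 * μ) y (ψ i y)) ∧
      (∀ x, ¬ S x → ∃ i < D, ∀ γ ∈ W, ∀ b ∈ V, ψ i (b • γ • x) = ψ i (γ • x)) ∧
      (∀ z, {x | S x ∧ ∃ γ ∈ W, Bl V (4 * μ) z (γ • x)}.encard ≤ β) ∧
      β * μ ^ D ≤ (W.ncard ^ 3 * ϱ) ^ D * (W.ncard * (V ^ (4 * μ)).ncard) := fun D => by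
    induction D with
    | zero =>
      refine ⟨fun _ => id, fun _ => True, _, fun _ => measurable_id, measurable_const,
        fun _ => refl, fun x h => (h trivial).elim, fun z => le_trans (encard_le_encard ?_)
        (encard_biUnion_mul hW.cast_ncard_eq.ge
          (C := fun γ => (fun v => γ⁻¹ • v • z) '' V ^ (4 * μ)) fun γ _ =>
          (encard_image_le _ _).trans (fin_pow hV _).cast_ncard_eq.ge), by simp⟩
      rintro x ⟨-, γ, hγ, v, hv, e⟩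
      exact mem_biUnion hγ ⟨v, hv, by simp [e]⟩
    | succ D ih =>
      obtain ⟨ψ, S, β, a1, a2, a3, a4, a5, a6⟩ := ih
      obtain ⟨φ, S', b1, b2, b3, b4, b5⟩ := layer hm hV h1 hi hV' sub hW cj hμ m1 m2 m3 hϱ a2 a5
      refine ⟨fun i => if i = D then φ else ψ i, S', _, fun i => ?_, b2, fun i => ?_,
        fun x hx => ?_, b5, ?_⟩
      · dsimp only
        split_ifs
        exacts [b1, a1 i]
      · dsimp only
        split_ifs
        exacts [b3, a3 i]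
      · by_cases h : S x
        · exact ⟨D, D.lt_succ_self, by simpa using b4 x h hx⟩
        · obtain ⟨i, i1, i2⟩ := a4 x h
          exact ⟨i, by omega, by simpa [i1.ne] using i2⟩
      · calc _ = W.ncard * (W.ncard * ϱ) * (W.ncard * β / μ * μ) * μ ^ D := by ring
          _ ≤ W.ncard * (W.ncard * ϱ) * (W.ncard * β) * μ ^ D :=
            Nat.mul_le_mul_right _ (Nat.mul_le_mul_left _ (Nat.div_mul_le_self _ _))
          _ = W.ncard ^ 3 * ϱ * (β * μ ^ D) := by ring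
          _ ≤ W.ncard ^ 3 * ϱ * _ := Nat.mul_le_mul_left _ a6
          _ = _ := by ring
  obtain ⟨ψ, S, β, a1, -, a3, a4, a5, a6⟩ := key D
  refine ⟨ψ, a1, a3, fun x => a4 x fun hx => ?_⟩
  obtain rfl : β = 0 := by
    by_contra hn
    exact (a6.trans_lt hD).not_ge (Nat.le_mul_of_pos_left _ (Nat.pos_of_ne_zero hn))
  have := a5 x
  rw [Nat.cast_zero, nonpos_iff_eq_zero, encard_eq_zero] at this
  exact this.subset ⟨hx, 1, w1, by simpa using refl x⟩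

end Pool.Agent.P.MP_91e65d_lc.Ws
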