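import Pool.Agent.P.MP_91e65d_lc.Ws.Union
import Pool.Agent.P.MP_91e65d_lc.Ws.Defs2

set_option autoImplicit false

namespace Pool.Agent.P.MP_91e65d_lc.Ws

open Set Pool.Agent.P.MP_91e65d_lc.Tr
open scoped Pointwise

variable {Γ X : Type*} [Group Γ] [MulAction Γ X] [MeasurableSpace X] [Countable Γ]

/-- Padded decompositions of the orbits of `A` that are thick in all directions. -/
theorem padded [StandardBorelSpace X] (hm : ∀ γ : Γ, Measurable fun x : X => γ • x)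
    (A : Subgroup Γ) [hA : A.Normal] {U : Set Γ} (hU : U.Finite) (h1 : 1 ∈ U) (hi : U⁻¹ = U)
    {d n n0 t q : ℕ}
    (hg : ∀ j, (((A : Set Γ) ∩ U ^ (n0 + 4 * n * (2 * d + 1))) ^ j).ncard ≤ t * (j + 1) ^ d)
    (hq : q = t * (9 ^ (2 * d + 1) + 1) ^ d + (U.ncard ^ n) ^ (6 * d + 7) + 1) :
    ∃ (Z : Set Γ) (N : ℕ) (ψ : ℕ → X → X), Z ⊆ U ^ N ∧ Z⁻¹ = Z ∧ Z.ncard ≤ q ^ (2 * d + 1) ∧
      (∀ i, Measurable (ψ i)) ∧ (∀ i y, ∃ v ∈ Z, v • y = ψ i y) ∧ ∀ x, ∃ i < 2 * d + 2,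
        ∀ γ ∈ U ^ n, ∀ b ∈ (A : Set Γ) ∩ U ^ n0, ψ i (b • γ • x) = ψ i (γ • x) := by
  let V : ℕ → Set Γ := fun j => A ∩ U ^ (n0 + 4 * n * j)
  have Vf : ∀ j, (V j).Finite := fun j => (fin_pow hU _).subset inter_subset_right
  have V1 : ∀ j, 1 ∈ V j := fun j => ⟨A.one_mem, Set.one_mem_pow h1⟩
  have Vi : ∀ j, (V j)⁻¹ = V j := fun j => by
    ext g
    exact ⟨fun h => ⟨A.inv_mem_iff.1 h.1, by simpa using mem_pow_inv hi h.2⟩,
      fun h => ⟨A.inv_mem h.1, mem_pow_inv hi h.2⟩⟩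
  have Vm : ∀ i j, i ≤ j → V i ⊆ V j := fun i j h =>
    inter_subset_inter_right _ (Set.pow_subset_pow_right h1 (by gcongr))
  have q1 : 1 ≤ q := by omega
  have top : (V (2 * d + 1) ^ (9 ^ (2 * d + 1) * q ^ 2)).ncard < q ^ (2 * d + 1) := by
    have : 1 ≤ q ^ 2 := Nat.one_le_pow _ _ q1
    calc _ ≤ t * (9 ^ (2 * d + 1) * q ^ 2 + 1) ^ d := hg _
      _ ≤ t * ((9 ^ (2 * d + 1) + 1) * q ^ 2) ^ d := by gcongr; linarith
      _ = t * (9 ^ (2 * d + 1) + 1) ^ d * q ^ (2 * d) := by rw [mul_pow, ← pow_mul, mul_assoc]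
      _ < q * q ^ (2 * d) := Nat.mul_lt_mul_of_pos_right (by omega) (by positivity)
      _ = _ := (pow_succ' _ _).symm
  obtain ⟨j, j1, j2⟩ : ∃ j < 2 * d + 1, (V (j + 1) ^ (9 * (9 ^ j * q ^ 2))).ncard ≤
      q * (V j ^ (9 ^ j * q ^ 2)).ncard := by
    by_contra hn
    push Not at hn
    have key : ∀ j ≤ 2 * d + 1, q ^ j ≤ (V j ^ (9 ^ j * q ^ 2)).ncard := fun j hj => by
      induction j with
      | zero => exact (ncard_pos (fin_pow (Vf 0) _)).2 ⟨1, Set.one_mem_pow (V1 0)⟩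
      | succ j ih =>
        rw [pow_succ', pow_succ' 9 j, mul_assoc]
        exact (Nat.mul_le_mul_left _ (ih (by omega))).trans (hn j (by omega)).le
    exact top.not_ge (key _ le_rfl)
  have hZ : (V j ^ (4 * (9 ^ j * q ^ 2))).ncard ≤ q ^ (2 * d + 1) := by
    refine (ncard_le_ncard ((Set.pow_subset_pow_left (Vm _ _ j1.le)).trans
      (Set.pow_subset_pow_right (V1 _) ?_)) (fin_pow (Vf _) _)).trans top.le
    have : 9 ^ (j + 1) ≤ 9 ^ (2 * d + 1) := Nat.pow_le_pow_right (by norm_num) j1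
    rw [← mul_assoc]
    exact Nat.mul_le_mul_right _ (by rw [pow_succ] at this; omega)
  obtain ⟨ψ, p1, p2, p3⟩ := layers hm (Vf j) (V1 j) (Vi j) (Vf (j + 1)) (Vm _ _ j.le_succ)
    (fin_pow hU n) (Set.one_mem_pow h1) (fun γ hγ γ' hγ' v hv => ⟨hA.conj_mem v hv.1 _, by
      have g := mem_pow_add hγ' (mem_pow_inv hi hγ)
      have := mem_pow_add (mem_pow_add g hv.2) (mem_pow_inv hi g)
      rwa [show n + n + (n0 + 4 * n * j) + (n + n) = n0 + 4 * n * (j + 1) by ring] at this⟩)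
    (by positivity) j2 (D := 2 * d + 2) (by
      have w : (U ^ n).ncard ≤ U.ncard ^ n := ncard_pow_le n
      have : 1 ≤ 9 ^ j := Nat.one_le_pow _ _ (by norm_num)
      calc _ ≤ ((U.ncard ^ n) ^ 3 * q) ^ (2 * d + 2) * (U.ncard ^ n * q ^ (2 * d + 1)) := by gcongr
        _ = (U.ncard ^ n) ^ (6 * d + 7) * q ^ (4 * d + 3) := by ring
        _ < q * q ^ (4 * d + 3) := Nat.mul_lt_mul_of_pos_right (by omega) (by positivity)
        _ = (1 * q ^ 2) ^ (2 * d + 2) := by ring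
        _ ≤ _ := by gcongr)
  exact ⟨_, (n0 + 4 * n * j) * (4 * (9 ^ j * q ^ 2)), ψ,
    by rw [pow_mul U]; exact Set.pow_subset_pow_left inter_subset_right,
    by rw [← inv_pow (V j), Vi], hZ, p1, p2,
    fun x => (p3 x).imp fun i h => ⟨h.1, fun γ hγ b hb => h.2 γ hγ b (Vm 0 j j.zero_le hb)⟩⟩

/-- One scale. -/
theorem one_scale' [StandardBorelSpace X] (hm : ∀ γ : Γ, Measurable fun x : X => γ • x)
    (A : Subgroup Γ) [hA : A.Normal] {d : ℕ} {U : Set Γ} (hs : ∀ C : ℕ, ∃ L : ℕ, 1 ≤ L ∧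
      ∀ j : ℕ, (((A : Set Γ) ∩ U ^ (C * L)) ^ j).ncard ≤ tower L * (j + 1) ^ d)
    (hU : U.Finite) (h1 : 1 ∈ U) (hi : U⁻¹ = U) :
    ∃ (φ : X → X) (σ : X → Γ) (ι : X → ℕ) (N : ℕ), Measurable φ ∧ (∀ x, σ x ∈ U) ∧
      (∀ x, ι x < 2 * d + 2) ∧ (∀ x, ∃ g ∈ U ^ N, g • x = φ x) ∧
      ∀ x, ∀ t ∈ U, ∀ t' ∈ U, ∀ u ∈ U, ι (t • x) = ι (t' • x) →
        σ (t' • x) * t' * (σ (t • x) * t)⁻¹ * u⁻¹ ∈ A → φ (t • x) = φ (t' • x) := by
  classical
  have := hU.fintype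
  let s : Finset (U → ℕ) := Fintype.piFinset fun _ => Finset.range 8
  obtain ⟨K, hK⟩ : Tw fun L => (tower L * (9 ^ (2 * d + 1) + 1) ^ d +
      (U.ncard ^ (2 * L)) ^ (6 * d + 7) + 1) ^ (2 * d + 1) :=
    (((Tw.tower.mul (Tw.const _)).add (((Tw.const _).pow ((Tw.const 2).mul Tw.id)).pow
      (Tw.const _))).add (Tw.const 1)).pow (Tw.const _)
  obtain ⟨L', L1, L2⟩ := hs ((16 * d + 17) * (1 + (K + s.card + 4)))
  obtain ⟨L, hL⟩ : ∃ L, L = L' + (K + s.card + 4) := ⟨_, rfl⟩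
  obtain ⟨Z, N, ψ, z1, z2, z3, p1, p2, p3⟩ := padded hm A hU h1 hi (d := d) (n := 2 * L)
    (n0 := 4 * L + 5) (t := tower L) (fun j => by
      refine (ncard_le_ncard (Set.pow_subset_pow_left (inter_subset_inter_right _
        (Set.pow_subset_pow_right h1 ?_)))
        (fin_pow ((fin_pow hU _).subset inter_subset_right) j)).trans
        ((L2 j).trans (Nat.mul_le_mul_right _ (tower_mono (by omega))))
      have : L ≤ (1 + (K + s.card + 4)) * L' := by rw [hL]; nlinarith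
      calc _ ≤ (16 * d + 17) * L := by nlinarith
        _ ≤ (16 * d + 17) * ((1 + (K + s.card + 4)) * L') := Nat.mul_le_mul_left _ this
        _ = _ := (mul_assoc _ _ _).symm) rfl
  replace z3 := z3.trans (hK L)
  have zf : Z.Finite := (fin_pow hU N).subset z1
  have i1 : ∀ γ ∈ U, γ⁻¹ ∈ U := fun γ h => hi ▸ Set.inv_mem_inv.2 h
  have zi : ∀ γ ∈ Z, γ⁻¹ ∈ Z := fun γ h => z2 ▸ Set.inv_mem_inv.2 h
  have u1 : ∀ γ ∈ U, γ ∈ U ^ 1 := fun γ h => by rwa [pow_one]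
  let G : ℕ → X → Prop := fun i y => ∀ b : Γ, b ∈ (A : Set Γ) ∩ U ^ (4 * L + 5) →
    ψ i (b • y) = ψ i y
  let R : ℕ → ℕ → X → X → Prop := fun i k y y' => (∃ a ∈ (A : Set Γ) ∩ U ^ (2 * k + 5),
    a • y = y') ∧ ∀ j, k + j ≤ 2 * L → ∀ γ ∈ U ^ j, G i (γ • y)
  have hR : ∀ i, FiltR U (R i) := by
    rintro i k γ hγ y _ ⟨⟨a, ha, rfl⟩, h⟩
    refine ⟨⟨γ * a * γ⁻¹, ⟨hA.conj_mem a ha.1 γ, ?_⟩, by simp [mul_smul]⟩, fun j hj δ hδ => ?_⟩
    · have := mem_pow_add (mem_pow_add (u1 γ hγ) ha.2) (u1 _ (i1 γ hγ))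
      rwa [show 1 + (2 * k + 5) + 1 = 2 * (k + 1) + 5 by ring] at this
    · rw [smul_smul]
      exact h (j + 1) (by omega) _ (mem_pow_add hδ (u1 γ hγ))
  have hψ : ∀ i k, k ≤ 2 * L → InvR (R i k) (ψ i) := by
    rintro i k hk y _ ⟨⟨a, ha, rfl⟩, h⟩
    simpa using (h 0 hk 1 (by simp) a ⟨ha.1, Set.pow_subset_pow_right h1 (by omega) ha.2⟩).symm
  have key : ∀ i, ∀ γ : U, ∃ c : X → ℕ, Measurable c ∧ (∀ x, c x < 8) ∧
      InvR (R i (2 + s.card)) c ∧ ∀ x, c x = c (γ.1 • x) → ψ i x = ψ i (γ.1 • x) := fun i γ => by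
    obtain ⟨c, c1, c2, c3⟩ := colour_set hm (Z := Z * {γ.1, γ.1⁻¹} * Z)
      ((zf.mul (toFinite _)).mul zf) (by
        rintro _ ⟨_, ⟨a, ha, _, rfl | rfl, rfl⟩, b, hb, rfl⟩
        · exact ⟨_, ⟨_, zi b hb, _, Or.inr rfl, rfl⟩, _, zi a ha, by simp [mul_assoc]⟩
        · exact ⟨_, ⟨_, zi b hb, _, Or.inl rfl, rfl⟩, _, zi a ha, by simp [mul_assoc]⟩)
    obtain ⟨c', d1, d2, d3, d4⟩ := reduceR hm (hR i) h1 γ.2 (2 + s.card) (L + K + 2)
      (fun x => c (ψ i x)) (c1.comp (p1 i)) (fun x => by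
        have h2 : ({γ.1, γ.1⁻¹} : Set Γ).ncard ≤ 2 :=
          (ncard_insert_le _ _).trans (by simp)
        calc c (ψ i x) ≤ Z.ncard * ({γ.1, γ.1⁻¹} : Set Γ).ncard * Z.ncard := (c2 _).trans
              (Set.natCard_mul_le.trans (Nat.mul_le_mul_right _ Set.natCard_mul_le))
          _ ≤ tower (L + K) * 2 * tower (L + K) := by gcongr
          _ = 2 * tower (L + K) ^ 2 := by ring
          _ < _ := two_sq_lt _)
      fun y y' r => congrArg c (hψ i _ (by omega) y y' r)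
    refine ⟨c', d1, d2, d3, fun x h => ?_⟩
    obtain ⟨⟨a, ha, e⟩, b, hb, e'⟩ := And.intro (p2 i x) (p2 i (γ.1 • x))
    have e2 : ψ i (γ.1 • x) = (b * γ.1 * a⁻¹) • ψ i x := by rw [← e, ← e']; simp [mul_smul]
    rw [e2]
    exact c3 _ _ ⟨_, ⟨b, hb, _, Or.inl rfl, rfl⟩, _, zi a ha, rfl⟩
      (e2 ▸ by_contra fun hn => d4 x hn h)
  choose c c1 c2 c3 c4 using key
  choose M m1 m2 m3 m4 using fun i => greedyR hm (hR i) h1 hU.countable i1
    (κ := fun x γ => c i γ x) (fun j => by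
      simp only [funext_iff]
      exact Measurable.forall fun γ => Measurable.eq (c1 i γ) measurable_const) s 2
    (fun y y' r => funext fun γ => c3 i γ y y' r)
  have : Nonempty U := ⟨⟨1, h1⟩⟩
  obtain ⟨g, hg⟩ := exists_surjective_nat U
  have ex : ∀ i x, ∃ k, M i ((g k).1 • x) := fun i x => by
    obtain ⟨γ, hγ, h⟩ := m4 i x (Fintype.mem_piFinset.2 fun γ => Finset.mem_range.2 (c2 i γ x))
    obtain ⟨k, e⟩ := hg ⟨γ, hγ⟩
    exact ⟨k, by rwa [e]⟩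
  obtain ⟨σ, s1, s2, s3⟩ : ∃ σ : ℕ → X → Γ, (∀ i, Measurable fun x => σ i x • x) ∧
      (∀ i x, σ i x ∈ U) ∧ ∀ i x, M i (σ i x • x) :=
    ⟨fun i x => (g (Nat.find (ex i x))).1, fun i => meas_pick (F := fun k (x : X) => (g k).1 • x)
      (fun k => hm _) (meas_find (ex i) fun k => (m1 i).comp (hm _)), fun i x => (g _).2,
      fun i x => Nat.find_spec (ex i x)⟩
  obtain ⟨ι, k1, k2, k3⟩ : ∃ ι : X → ℕ, Measurable ι ∧ (∀ x, ι x < 2 * d + 2) ∧
      ∀ x, ∀ γ ∈ U ^ (2 * L), G (ι x) (γ • x) :=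
    ⟨fun x => Nat.find (p3 x), meas_find p3 fun i => measurable_const.and
      (Measurable.forall fun γ => measurable_const.imp (Measurable.forall fun b =>
        measurable_const.imp (Measurable.eq ((p1 i).comp ((hm b).comp (hm γ)))
          ((p1 i).comp (hm γ))))),
      fun x => (Nat.find_spec (p3 x)).1, fun x => (Nat.find_spec (p3 x)).2⟩
  refine ⟨fun x => ψ (ι x) (σ (ι x) x • x), fun x => σ (ι x) x, ι, N + 1,
    meas_pick (F := fun i x => ψ i (σ i x • x)) (fun i => (p1 i).comp (s1 i)) k1,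
    fun x => s2 _ _, k2, fun x => ?_, fun x t ht t' ht' u hu hι hb => ?_⟩
  · obtain ⟨v, e1, e2⟩ := p2 (ι x) (σ (ι x) x • x)
    exact ⟨_, mem_pow_add (z1 e1) (u1 _ (s2 _ x)), by rw [mul_smul, e2]⟩
  · have k4 := k3 (t • x)
    dsimp only at hb ⊢
    rw [← hι] at hb ⊢
    generalize ι (t • x) = i at *
    have q := s3 i (t • x)
    have q' := s3 i (t' • x)
    have w := s2 i (t • x)
    have w' := s2 i (t' • x)
    generalize σ i (t • x) = a at *
    generalize σ i (t' • x) = a' at *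
    have r : R i 2 (u • a • t • x) (a' • t' • x) := by
      refine ⟨⟨a' * t' * (a * t)⁻¹ * u⁻¹, ⟨hb, Set.pow_subset_pow_right h1 (by norm_num)
        (mem_pow_add (mem_pow_add (mem_pow_add (u1 _ w') (u1 _ ht'))
        (mem_pow_inv hi (mem_pow_add (u1 _ w) (u1 _ ht)))) (u1 _ (i1 u hu)))⟩, ?_⟩,
        fun j hj γ hγ => ?_⟩
      · simp only [smul_smul]; congr 1; group
      · rw [smul_smul, smul_smul _ a]
        exact k4 _ (Set.pow_subset_pow_right h1 (by omega)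
          (mem_pow_add (mem_pow_add hγ (u1 _ hu)) (u1 _ w)))
    rw [← m2 i _ _ r] at q'
    rw [← hψ i 2 (by omega) _ _ r]
    exact c4 i ⟨u, hu⟩ _ (congrFun (m3 i _ u hu q q') ⟨u, hu⟩)

/-- All scales, with a multiplicity that depends only on the group. -/
theorem scales [StandardBorelSpace X] (hm : ∀ γ : Γ, Measurable fun x : X => γ • x)
    (A : Subgroup Γ) [A.Normal] (hQ : LocPolyGrowth (Γ ⧸ A)) (hA : SubTowerPoly A) {T : Set Γ}
    (Tf : T.Finite) (T1 : 1 ∈ T) (Ti : T⁻¹ = T) : ∃ k : ℕ, ∀ r, ∃ (φ : X → X) (D : ℕ),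
      Measurable φ ∧ (∀ x, Bl T D x (φ x)) ∧
        ∀ x, ∃ s : Finset X, s.card ≤ k ∧ ∀ y, Bl T r x y → φ y ∈ s := by
  classical
  obtain ⟨K, hK⟩ := exists_doubling hQ
  obtain ⟨d, hA⟩ := hA
  refine ⟨(2 * d + 2) * K, fun r => ?_⟩
  let π := QuotientGroup.mk' A
  obtain ⟨m, m1, m2⟩ := hK (π '' T ^ r) ((fin_pow Tf r).image π)
    ((Set.Nonempty.pow ⟨1, T1⟩).image π)
  simp only [← Set.image_pow, ← pow_mul] at m2
  have fin : ∀ n, (π '' T ^ n).Finite := fun n => (fin_pow Tf n).image π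
  obtain ⟨F, -, F1, F2, F3⟩ := Set.ruzsa_covering_mul (K := K) (fin (r * m * 8)) (fin (r * m))
    ((Set.Nonempty.pow ⟨1, T1⟩).image π) (by
      rw [← Set.image_mul, ← pow_add, show r * m * 8 + r * m = r * (9 * m) by ring]
      exact_mod_cast m2)
  obtain ⟨φ, σ, ι, n, p1, p2, p3, p4, p5⟩ := one_scale' hm A (hA _ (fin_pow Tf (r * m * 4)))
    (fin_pow Tf (r * m * 4)) (Set.one_mem_pow T1) (by rw [← inv_pow T, Ti])
  refine ⟨φ, r * m * 4 * n, p1, fun x => by rw [Bl, pow_mul]; exact p4 x, fun x => ?_⟩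
  let P : ℕ × (Γ ⧸ A) → Γ → Prop := fun f t => t ∈ T ^ (r * m * 4) ∧ ι (t • x) = f.1 ∧
    ∃ v ∈ T ^ (r * m), ∃ w ∈ T ^ (r * m), π (σ (t • x) * t)⁻¹ = f.2 * (π v / π w)
  refine ⟨(Finset.range (2 * d + 2) ×ˢ F3.toFinset).image
    fun f => φ (Classical.epsilon (P f) • x), Finset.card_image_le.trans ?_, fun y hy => ?_⟩
  · rw [Finset.card_product, Finset.card_range, ← Set.ncard_eq_toFinset_card F F3]
    exact Nat.mul_le_mul_left _ (by exact_mod_cast F1)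
  obtain ⟨t, ht, rfl⟩ := hy
  replace ht : t ∈ T ^ (r * m * 4) := Set.pow_subset_pow_right T1 (by nlinarith) ht
  have := mem_pow_inv Ti (mem_pow_add (p2 (t • x)) ht)
  rw [show r * m * 4 + r * m * 4 = r * m * 8 by ring] at this
  obtain ⟨f, hf, _, ⟨_, ⟨v, hv, rfl⟩, _, ⟨w, hw, rfl⟩, rfl⟩, e⟩ := F2 (mem_image_of_mem π this)
  obtain ⟨ht', hι, v', hv', w', hw', e'⟩ :
      P (ι (t • x), f) (Classical.epsilon (P (ι (t • x), f))) :=
    Classical.epsilon_spec (p := P (ι (t • x), f)) ⟨t, ht, rfl, v, hv, w, hw, e.symm⟩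
  refine Finset.mem_image.2 ⟨(ι (t • x), f), Finset.mem_product.2
    ⟨Finset.mem_range.2 (p3 _), F3.mem_toFinset.2 hf⟩,
    (p5 x t ht _ ht' (w' * v'⁻¹ * v * w⁻¹) ?_ hι.symm ?_).symm⟩
  · have := mem_pow_add (mem_pow_add (mem_pow_add hw' (mem_pow_inv Ti hv')) hv)
      (mem_pow_inv Ti hw)
    rwa [show r * m + r * m + r * m + r * m = r * m * 4 by ring] at this
  · rw [← QuotientGroup.eq_one_iff]
    change π _ = 1
    dsimp only at e e'
    generalize σ (Classical.epsilon (P (ι (t • x), f)) • x) *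
      Classical.epsilon (P (ι (t • x), f)) = a at e' ⊢
    rw [map_mul, map_mul, ← e, ← inv_inv a, map_inv, e']
    simp only [map_mul, map_inv, div_eq_mul_inv]
    group

theorem hyperfinite_local [StandardBorelSpace X] (hm : ∀ γ : Γ, Measurable fun x : X => γ • x)
    (h : ∀ H : Subgroup Γ, H.FG → PolyByPoly H) : Hyperfinite (MulAction.orbitRel Γ X) := by
  obtain ⟨g', hg'⟩ := exists_surjective_nat Γ
  let g : ℕ → Γ := fun i => Nat.casesOn i 1 g'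
  let T : ℕ → Set Γ := fun j => g '' Iic j ∪ (g '' Iic j)⁻¹
  have T1 : ∀ j, 1 ∈ T j := fun j => Or.inl ⟨0, Nat.zero_le j, rfl⟩
  have Ti : ∀ j, (T j)⁻¹ = T j := fun j => by simp only [T, union_inv, inv_inv, union_comm]
  have Tf : ∀ j, (T j).Finite := fun j => ((finite_Iic j).image g).union ((finite_Iic j).image g).inv
  refine hyperfinite_of_levels hm Tf T1 Ti (fun i j h => union_subset_union
    (image_mono (Iic_subset_Iic.2 h)) (inv_subset_inv.2 (image_mono (Iic_subset_Iic.2 h))))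
    (fun γ => let ⟨i, e⟩ := hg' γ; ⟨i + 1, Or.inl ⟨i + 1, mem_Iic.2 le_rfl, e⟩⟩) fun n => ?_
  obtain ⟨A, _, hQ, hA⟩ := h (Subgroup.closure (T n)) ((Subgroup.fg_iff _).2 ⟨_, rfl, Tf n⟩)
  let ι := (Subgroup.closure (T n)).subtype
  have e : ι '' (ι ⁻¹' T n) = T n := image_preimage_eq_of_subset fun t ht =>
    ⟨⟨t, Subgroup.subset_closure ht⟩, rfl⟩
  have b : ∀ j (x y : X), Bl (ι ⁻¹' T n) j x y ↔ Bl (T n) j x y := fun j x y => by
    conv_rhs => rw [← e, Bl, ← Set.image_pow]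
    exact ⟨fun ⟨v, hv, e⟩ => ⟨_, ⟨v, hv, rfl⟩, e⟩, fun ⟨_, ⟨v, hv, rfl⟩, e⟩ => ⟨v, hv, e⟩⟩
  simpa only [b] using scales (X := X) (fun γ => hm γ.1) A hQ hA (T := ι ⁻¹' T n)
    ((Tf n).preimage Subtype.val_injective.injOn) (T1 n) (by
      ext t
      rw [mem_inv, mem_preimage, map_inv, ← mem_inv, Ti, mem_preimage])

omit [Countable Γ] in
/-- The hypothesis passes to subgroups. -/
lemma polyByPoly_subgroup (A : Subgroup Γ) [A.Normal] (hQ : LocPolyGrowth (Γ ⧸ A))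
    (hA : SubTowerPoly A) (H : Subgroup Γ) : PolyByPoly H := by
  refine ⟨A.subgroupOf H, inferInstance, ?_, ?_⟩
  · obtain ⟨d, hd⟩ := hQ
    let f : H ⧸ A.subgroupOf H →* Γ ⧸ A := QuotientGroup.map _ _ H.subtype le_rfl
    have hf : Function.Injective f := (injective_iff_map_eq_one f).2 fun q => by
      obtain ⟨q, rfl⟩ := QuotientGroup.mk_surjective q
      exact fun h => (QuotientGroup.eq_one_iff _).2 ((QuotientGroup.eq_one_iff (N := A) q.1).1 h)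
    refine ⟨d, fun S hS => (hd _ (hS.image f)).imp fun C hC n => ?_⟩
    rw [← ncard_image_of_injective _ hf, Set.image_pow]
    exact hC n
  · obtain ⟨d, hd⟩ := hA
    refine ⟨d, fun T hT C => (hd _ (hT.image H.subtype) C).imp fun L hL => ⟨hL.1, fun j => ?_⟩⟩
    rw [← ncard_image_of_injective _ H.subtype_injective, Set.image_pow]
    refine (ncard_le_ncard (Set.pow_subset_pow_left ?_) (fin_pow
      ((fin_pow (hT.image _) _).subset inter_subset_right) j)).trans (hL.2 j)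
    rintro _ ⟨a, ha, rfl⟩
    exact ⟨ha.1, Set.image_pow H.subtype T _ ▸ mem_image_of_mem _ ha.2⟩

omit [Countable Γ] in
/-- The locally finite case is contained in the polynomial one. -/
lemma SubTower.poly {A : Subgroup Γ} (h : SubTower A) : SubTowerPoly A := by
  refine ⟨0, fun T hT C => (h T hT C).imp fun L hL => ⟨hL.1, fun j => ?_⟩⟩
  have hf := finite_of_encard_le_coe hL.2
  have := hL.2
  rw [← hf.cast_ncard_eq, Nat.cast_le] at this
  simpa using (ncard_le_ncard (Subgroup.pow_subset Subgroup.subset_closure) hf).trans this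

/-- The earlier theorem on locally finite kernels is a special case. -/
theorem torsion_kernel_of_local [StandardBorelSpace X]
    (hm : ∀ γ : Γ, Measurable fun x : X => γ • x) (A : Subgroup Γ) [A.Normal]
    (hQ : LocPolyGrowth (Γ ⧸ A)) (hA : SubTower A) : Hyperfinite (MulAction.orbitRel Γ X) :=
  hyperfinite_local hm fun H _ => polyByPoly_subgroup A hQ hA.poly H

end Pool.Agent.P.MP_91e65d_lc.Ws
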