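import Pool.Agent.P.MP_91e65d_lc.Ws.Pad

set_option autoImplicit false

namespace Pool.Agent.P.MP_91e65d_lc.Ws

open Set Pool.Agent.P.MP_91e65d_lc.Tr
open scoped Pointwise

/-- Composition of `j` maps starting from index `n`. -/
def comp {X : Type*} (f : ℕ → X → X) : ℕ → ℕ → X → X
  | _, 0 => id
  | n, j + 1 => comp f (n + 1) j ∘ f n

lemma comp_add {X : Type*} (f : ℕ → X → X) (i : ℕ) :
    ∀ n j x, comp f n (i + j) x = comp f (n + i) j (comp f n i x) := by
  induction i with
  | zero => intro n j x; simp [comp]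
  | succ i ih =>
    intro n j x
    rw [add_right_comm, show n + (i + 1) = n + 1 + i by ring]
    exact ih (n + 1) j (f n x)

variable {Γ X : Type*} [Group Γ] [MulAction Γ X]

lemma Bl.trans {V : Set Γ} {m n : ℕ} {x y z : X} (h : Bl V m x y) (h' : Bl V n y z) :
    Bl V (m + n) x z :=
  let ⟨v, hv, e⟩ := h; let ⟨w, hw, e'⟩ := h'
  ⟨w * v, add_comm n m ▸ mem_pow_add hw hv, by rw [mul_smul, e, e']⟩

lemma Bl.imp {V V' : Set Γ} (h : V ⊆ V') {n : ℕ} {x y : X} (h' : Bl V n x y) : Bl V' n x y :=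
  let ⟨v, hv, e⟩ := h'; ⟨v, Set.pow_subset_pow_left h hv, e⟩

/-- `y` is within `j` of the fibre of `φ` over `z`. -/
def Near (V : Set Γ) (φ : X → X) (j : ℕ) (z y : X) : Prop := ∃ v ∈ V ^ j, φ (v • y) = z

lemma Near.of_bl {V : Set Γ} {φ : X → X} {i j : ℕ} {z x y : X} (h : Near V φ j z y)
    (h' : Bl V i x y) : Near V φ (j + i) z x :=
  let ⟨v, hv, e⟩ := h; let ⟨w, hw, e'⟩ := h'
  ⟨v * w, mem_pow_add hv hw, by rw [mul_smul, e', e]⟩

lemma Near.mono {V : Set Γ} (h1 : 1 ∈ V) {φ : X → X} {i j : ℕ} {z y : X} (h : Near V φ i z y)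
    (hij : i ≤ j) : Near V φ j z y :=
  let ⟨v, hv, e⟩ := h; ⟨v, Set.pow_subset_pow_right h1 hij hv, e⟩

variable [MeasurableSpace X]

lemma meas_comp {f : ℕ → X → X} (hf : ∀ n, Measurable (f n)) : ∀ j n, Measurable (comp f n j)
  | 0, _ => measurable_id
  | j + 1, n => (meas_comp hf j (n + 1)).comp (hf n)

variable [Countable Γ]

lemma meas_Near [MeasurableEq X] (hm : ∀ γ : Γ, Measurable fun x : X => γ • x) {φ : X → X}
    (p1 : Measurable φ) (V : Set Γ) (j : ℕ) : Measurable fun p : X × X => Near V φ j p.1 p.2 :=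
  Measurable.exists fun v => measurable_const.and
    (Measurable.eq (p1.comp ((hm v).comp measurable_snd)) measurable_fst)

/-- Moving the boundaries of the fibres of `φ` by prescribed amounts. -/
lemma wiggle [StandardBorelSpace X] (hm : ∀ γ : Γ, Measurable fun x : X => γ • x) {V : Set Γ}
    (hV : V.Finite) (h1 : 1 ∈ V) (hi : V⁻¹ = V) {φ : X → X} (p1 : Measurable φ) {D : ℕ}
    (p2 : ∀ x, Bl V D x (φ x)) (r μ : ℕ) (a : X → ℕ) : ∃ ψ : X → X, Measurable a →
      Measurable ψ ∧ (∀ y, Bl V ((2 * μ + 2) * r + D) y (ψ y)) ∧ ∀ x y, Bl V r x y → ψ y ≠ ψ x →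
        ∃ z, Near V φ ((2 * min (a z) μ + 2) * r) z x ∧ ¬ Near V φ (2 * min (a z) μ * r) z x := by
  by_cases ha : Measurable a
  swap
  · exact ⟨id, fun h => absurd h ha⟩
  have key : ∀ y z, Near V φ ((2 * min (a z) μ + 1) * r) z y → Bl V ((2 * μ + 2) * r + D) y z := by
    rintro y z ⟨v, hv, e⟩
    refine (Bl.trans ⟨v, hv, rfl⟩ (e ▸ p2 (v • y))).mono h1 ?_
    have := min_le_right (a z) μ
    gcongr
    omega
  obtain ⟨ψ, s1, s2, s3⟩ := exists_min_sel hm
    (P := fun y z => Near V φ ((2 * min (a z) μ + 1) * r) z y)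
    (meas_pick (n := fun p : X × X => a p.2)
      (F := fun n p => Near V φ ((2 * min n μ + 1) * r) p.2 p.1)
      (fun n => (meas_Near hm p1 V _).comp measurable_swap)
      (ha.comp measurable_snd))
    (fun y z h => let ⟨v, _, e⟩ := key y z h; ⟨v, e⟩)
    (fun y => ((fin_pow hV _).image fun v => v • y).subset fun z hz => key y z hz)
    (fun y => ⟨φ y, 1, Set.one_mem_pow h1, by rw [one_smul]⟩)
  refine ⟨ψ, fun _ => ⟨s1, fun y => key _ _ (s2 y), fun x y h hn => ?_⟩⟩
  by_contra hc
  push Not at hc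
  refine hn (s3 _ _ fun z => ⟨fun h' => (hc z ?_).mono h1 ?_, fun h' => ?_⟩)
  · exact (h'.of_bl h).mono h1 (by ring_nf; rfl)
  · exact Nat.mul_le_mul_right _ (by omega)
  · exact ((hc z (h'.mono h1 (Nat.mul_le_mul_right _ (by omega)))).of_bl (h.symm hi)).mono h1
      (by ring_nf; rfl)

/-- An increasing union of levels, each with its own finite multiplicity, is hyperfinite. -/
theorem hyperfinite_of_levels [StandardBorelSpace X]
    (hm : ∀ γ : Γ, Measurable fun x : X => γ • x) {T : ℕ → Set Γ} (Tf : ∀ n, (T n).Finite)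
    (T1 : ∀ n, 1 ∈ T n) (Ti : ∀ n, (T n)⁻¹ = T n) (Tm : Monotone T) (Tc : ∀ γ, ∃ n, γ ∈ T n)
    (H : ∀ n, ∃ k : ℕ, ∀ r, ∃ (φ : X → X) (D : ℕ), Measurable φ ∧ (∀ x, Bl (T n) D x (φ x)) ∧
      ∀ x, ∃ s : Finset X, s.card ≤ k ∧ ∀ y, Bl (T n) r x y → φ y ∈ s) :
    Hyperfinite (MulAction.orbitRel Γ X) := by
  classical
  choose k φ D p1 p2 p3 using H
  let ρ : ℕ → ℕ → ℕ := fun n r => (2 * (k (n + 1) + 1) + 2) * r
  let r : ℕ → ℕ := fun n => Nat.rec 1 (fun n r => r + 2 * (ρ n r + D n (ρ n r))) n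
  let R : ℕ → ℕ := fun n => ρ n (r n) + D n (ρ n (r n))
  have rs : ∀ n, r (n + 1) = r n + 2 * R n := fun _ => rfl
  choose W hW using fun n => wiggle hm (Tf n) (T1 n) (Ti n) (p1 n (ρ n (r n))) (p2 n (ρ n (r n)))
    (r n) (k (n + 1) + 1)
  obtain ⟨NC, hNC⟩ : ∃ NC : (ℕ → X → ℕ) → ℕ → ℕ → X → Prop, ∀ c n m x, NC c n m x ↔
      ∃ v ∈ T n ^ r n, comp (fun i => W i (c i)) n (m + 1 - n) (v • x) ≠
        comp (fun i => W i (c i)) n (m + 1 - n) x := ⟨_, fun _ _ _ _ => Iff.rfl⟩
  let c : ℕ → ℕ → X → ℕ := fun m => Nat.rec (fun _ _ => 0)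
    (fun m c n z => c n z + if n ≤ m ∧ NC c (n + 1) m z then 1 else 0) m
  have cs : ∀ m n z, c (m + 1) n z = c m n z + if n ≤ m ∧ NC (c m) (n + 1) m z then 1 else 0 :=
    fun _ _ _ => rfl
  have cm : ∀ m n, Measurable (c m n) := fun m => by
    induction m with
    | zero => exact fun _ => measurable_const
    | succ m ih =>
      intro n
      have := meas_comp (fun i => (hW i _ (ih i)).1) (m + 1 - (n + 1)) (n + 1)
      refine (ih n).add (Measurable.ite (measurableSet_setOfPred.2 (measurable_const.and ?_))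
        measurable_const measurable_const)
      rw [show NC _ (n + 1) m = _ from funext fun z => propext (hNC (c m) (n + 1) m z)]
      exact Measurable.exists fun v => measurable_const.and
        (Measurable.eq (this.comp (hm v)) this).not
  have cf : ∀ m n z, c m n z = ((Finset.Ico n m).filter fun i => NC (c i) (n + 1) i z).card :=
    fun m n z => by
      induction m with
      | zero => simp [c]
      | succ m ih =>
        rw [cs, ih]
        by_cases h : n ≤ m
        · rw [Nat.Ico_succ_right_eq_insert_Ico h, Finset.filter_insert]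
          split_ifs with h1 h2 h2
          · rw [Finset.card_insert_of_notMem (by simp)]
          · exact absurd h1.2 h2
          · exact absurd ⟨h, h2⟩ h1
          · rfl
        · rw [Finset.Ico_eq_empty (by omega), Finset.Ico_eq_empty (by omega), if_neg (by tauto)]
          rfl
  have clt : ∀ m m' n z, n ≤ m → m < m' → NC (c m) (n + 1) m z → c m n z < c m' n z :=
    fun m m' n z h1 h2 h3 => by
      induction h2 with
      | refl => rw [cs, if_pos ⟨h1, h3⟩]; omega
      | step _ ih => rw [cs]; omega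
  have w2 : ∀ m n y, Bl (T n) (R n) y (W n (c m n) y) := fun m n => (hW n _ (cm m n)).2.1
  have cnt : ∀ (j n : ℕ) (x : X), ((Finset.Ico n (n + j)).filter fun m => NC (c m) n m x).card ≤ k n := by
    intro j
    induction j with
    | zero => simp
    | succ j ih =>
      intro n x
      have cb : ∀ m z, m < n + (j + 1) → c m n z ≤ k (n + 1) + 1 := fun m z h => by
        rw [cf]
        refine (Finset.card_le_card (t := insert n ((Finset.Ico (n + 1) (n + 1 + j)).filter
          fun i => NC (c i) (n + 1) i z)) fun i hi => ?_).trans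
          ((Finset.card_insert_le _ _).trans (Nat.succ_le_succ (ih (n + 1) z)))
        rw [Finset.mem_filter, Finset.mem_Ico] at hi
        rw [Finset.mem_insert, Finset.mem_filter, Finset.mem_Ico]
        by_cases e : i = n
        · exact Or.inl e
        · exact Or.inr ⟨by omega, hi.2⟩
      have ex : ∀ m, ∃ z, m ∈ ((Finset.Ico n (n + (j + 1))).filter fun m => NC (c m) n m x) →
          Near (T n) (φ n (ρ n (r n))) ((2 * c m n z + 2) * r n) z x ∧
          ¬ Near (T n) (φ n (ρ n (r n))) (2 * c m n z * r n) z x ∧ NC (c m) (n + 1) m z := by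
        intro m
        by_cases h : m ∈ ((Finset.Ico n (n + (j + 1))).filter fun m => NC (c m) n m x)
        swap
        · exact ⟨x, fun h' => absurd h' h⟩
        rw [Finset.mem_filter, Finset.mem_Ico, hNC] at h
        obtain ⟨⟨h1, h2⟩, v, hv, h3⟩ := h
        rw [show m + 1 - n = (m + 1 - (n + 1)) + 1 by omega] at h3
        simp only [comp, Function.comp] at h3
        obtain ⟨z, z1, z2⟩ := (hW n _ (cm m n)).2.2 x (v • x) ⟨v, hv, rfl⟩ fun e => h3 (by rw [e])
        rw [min_eq_left (cb m z h2)] at z1 z2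
        refine ⟨z, fun _ => ⟨z1, z2, ?_⟩⟩
        have b : Bl (T n) (R n) z x := by
          obtain ⟨u, hu, e⟩ := z1
          refine ((Bl.trans ⟨u, hu, rfl⟩ (e ▸ p2 n _ (u • x))).symm (Ti n)).mono (T1 n) ?_
          have := cb m z h2
          dsimp only [R, ρ]
          gcongr
        by_contra hn
        have key : ∀ y, Bl (T n) (r n) x y → comp (fun i => W i (c m i)) (n + 1) (m + 1 - (n + 1))
            (W n (c m n) y) = comp (fun i => W i (c m i)) (n + 1) (m + 1 - (n + 1)) z :=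
          fun y hy => by
            obtain ⟨u, hu, e⟩ := (((b.trans hy).trans (w2 m n y)).imp (Tm n.le_succ)).mono
              (T1 _) (n := r (n + 1)) (by rw [rs]; omega)
            by_contra hne
            exact hn ((hNC _ _ _ _).2 ⟨u, hu, by rwa [e]⟩)
        exact h3 ((key _ ⟨v, hv, rfl⟩).trans
          (key x ⟨1, Set.one_mem_pow (T1 n), one_smul _ _⟩).symm)
      choose z hz using ex
      obtain ⟨s, s1, s2⟩ := p3 n (ρ n (r n)) x
      refine (Finset.card_le_card_of_injOn z (fun m h => ?_) fun m h m' h' e => ?_).trans s1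
      · obtain ⟨u, hu, e⟩ := (hz m h).1
        have := cb m (z m) (Finset.mem_Ico.1 (Finset.mem_filter.1 h).1).2
        rw [← e]
        exact s2 _ (Bl.mono (T1 n) ⟨u, hu, rfl⟩ (by dsimp only [ρ]; gcongr))
      · have key : ∀ m m', m ∈ ((Finset.Ico n (n + (j + 1))).filter fun m => NC (c m) n m x) →
            m' ∈ ((Finset.Ico n (n + (j + 1))).filter fun m => NC (c m) n m x) → z m = z m' →
            ¬ m < m' := fun m m' h h' e hlt => by
          have := clt m m' n _ (Finset.mem_Ico.1 (Finset.mem_filter.1 h).1).1 hlt (hz m h).2.2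
          refine (hz m' h').2.1 (e ▸ (hz m h).1.mono (T1 n) (Nat.mul_le_mul_right _ ?_))
          omega
        exact le_antisymm (not_lt.1 (key _ _ h' h e.symm)) (not_lt.1 (key _ _ h h' e))
  have disp : ∀ m n y, ∃ j, j + 1 ≤ r n ∧ Bl (T n) j y (comp (fun i => W i (c m i)) 0 n y) :=
    fun m n y => by
      induction n with
      | zero => exact ⟨0, le_rfl, 1, by simp, one_smul _ _⟩
      | succ n ih =>
        obtain ⟨j, j1, j2⟩ := ih
        rw [comp_add _ n 0 1, zero_add]
        exact ⟨j + R n, by rw [rs]; omega, (j2.trans (w2 m n _)).imp (Tm n.le_succ)⟩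
  let Θ : ℕ → X → X := fun m => comp (fun i => W i (c m i)) 0 (m + 1)
  have Θm : ∀ m, Measurable (Θ m) := fun m => meas_comp (fun i => (hW i _ (cm m i)).1) _ _
  have hE : ∀ x y : X, MulAction.orbitRel Γ X x y ↔ ∃ γ : Γ, γ • x = y := fun x y => by
    rw [Setoid.comm', MulAction.orbitRel_apply]; rfl
  have cl : ∀ m x y, Θ m x = Θ m y → Bl (T (m + 1)) (r (m + 1) + r (m + 1)) x y :=
    fun m x y h => by
      obtain ⟨⟨i, i1, i2⟩, j, j1, j2⟩ := And.intro (disp m (m + 1) x) (disp m (m + 1) y)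
      exact (i2.trans (show Bl _ j (Θ m x) y from h ▸ j2.symm (Ti _))).mono (T1 _) (by omega)
  refine ⟨fun m => Setoid.ker fun x (i : ℕ) => Θ (m + i) x, fun m => ?_,
    monotone_nat_of_le_succ fun m x y h => ?_, fun m x => ?_, fun x y => ⟨fun h => ?_, ?_⟩⟩
  · simp only [Setoid.ker_def, funext_iff]
    exact measurableSet_setOfPred.2 (Measurable.forall fun i =>
      Measurable.eq ((Θm _).comp measurable_fst) ((Θm _).comp measurable_snd))
  · rw [Setoid.ker_def, funext_iff] at h ⊢
    exact fun i => by simpa only [add_assoc, add_comm i 1] using h (i + 1)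
  · exact ((fin_pow (Tf (m + 1)) _).image fun v => v • x).subset fun y hy =>
      cl m x y (congrFun (show (fun i => Θ (m + i) x) = fun i => Θ (m + i) y from hy) 0)
  · obtain ⟨γ, rfl⟩ := (hE _ _).1 h
    obtain ⟨n, hn⟩ := Tc γ
    have fin : {m | n ≤ m ∧ NC (c m) n m x}.Finite := by
      by_contra hf
      obtain ⟨t, t1, t2⟩ := Set.Infinite.exists_subset_card_eq hf (k n + 1)
      have := Finset.card_le_card (s := t) (t := (Finset.Ico n (n + (t.sup id + 1))).filter
        fun m => NC (c m) n m x) fun i hi => Finset.mem_filter.2 ⟨Finset.mem_Ico.2 ⟨(t1 hi).1, by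
          have := Finset.le_sup (f := id) hi
          dsimp only [id] at this
          omega⟩, (t1 hi).2⟩
      have := cnt (t.sup id + 1) n x
      omega
    obtain ⟨b, hb⟩ := fin.bddAbove
    refine ⟨b + 1 + n, Setoid.ker_def.2 (funext fun i => ?_)⟩
    have hn' : ¬ NC (c (b + 1 + n + i)) n (b + 1 + n + i) x := fun h => by
      have := hb (show b + 1 + n + i ∈ {m | n ≤ m ∧ NC (c m) n m x} from ⟨by omega, h⟩)
      omega
    have key : ∀ y, Bl (T n) 1 x y → Θ (b + 1 + n + i) y =
        comp (fun j => W j (c (b + 1 + n + i) j)) n (b + 1 + n + i + 1 - n) x := fun y hy => by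
      obtain ⟨j, j1, j2⟩ := disp (b + 1 + n + i) n y
      obtain ⟨u, hu, e⟩ := (hy.trans j2).mono (T1 n) (n := r n) (by omega)
      dsimp only [Θ]
      rw [show b + 1 + n + i + 1 = n + (b + 1 + n + i + 1 - n) by omega, comp_add, zero_add, ← e,
        Nat.add_sub_cancel_left]
      by_contra hne
      exact hn' ((hNC _ _ _ _).2 ⟨u, hu, hne⟩)
    exact (key x ⟨1, Set.one_mem_pow (T1 n), one_smul _ _⟩).trans
      (key _ ⟨γ, by rwa [pow_one], rfl⟩).symm
  · rintro ⟨m, h⟩
    obtain ⟨v, -, e⟩ := cl m x y (congrFun (Setoid.ker_def.1 h) 0)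
    exact (hE _ _).2 ⟨v, e⟩

end Pool.Agent.P.MP_91e65d_lc.Ws
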